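import Pool.Agent.H523.ZG.B2

set_option autoImplicit false
set_option linter.unusedSectionVars false

/-! # The lower bound of the variance for almost all primes: counting -/

namespace Pool.Agent.H523.ZG

open Polynomial Finset
open Pool.Agent.H341R2.Sharp (Mon mem_Mon)
open Pool.Agent.H523.FF (Ir mem_Ir PL mem_PL card_PL two_le_card IrLE mem_IrLE)
open Pool.Agent.H523.CM (gP aP cB SF LS th vth tot GG MSq Nav pw zs mem_SF poly_le_exp)

open scoped Classical

theorem good_G (hA : S_A) (hY : S_Y) (hR : S_R) (hG : S_G) (hL : S_L) (hE : S_E)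
    (ε η : ℝ) (hε : 0 < ε) (hη : 0 < η) : ∃ δ : ℝ, 0 < δ ∧ ∃ N : ℕ,
    ∀ (F : Type) [Field F] [Fintype F] (d : ℕ), N ≤ d →
      (((Ir F d).filter (fun Q => BadG ε η Q)).card : ℝ) ≤
        (Fintype.card F : ℝ) ^ d * (Fintype.card F : ℝ) ^ (-(δ * d)) := by
  obtain ⟨C, hC0, hX⟩ := X_lower hA hY hR
  obtain ⟨N₁, hN₁⟩ := good_pointwise hC0 hX hG hL ε η hε hη
  obtain ⟨N₂, hN₂⟩ := poly_le_exp (24 * Real.exp 6 * 48 / η) 5 (ε / 8) (by linarith)
  refine ⟨ε / 8, by linarith, N₁ + N₂ + 2, ?_⟩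
  intro F _ _ d hd
  have hq := two_le_card (F := F)
  set q : ℝ := (Fintype.card F : ℝ) with hqd
  have hq0 : 0 < q := by linarith
  have hdr : (2:ℝ) ≤ d := by exact_mod_cast (show 2 ≤ d by omega)
  set y : ℝ := q ^ (-(ε / 8 * d)) with hy
  have hy0 : 0 < y := Real.rpow_pos_of_pos hq0 _
  set T : ℕ → ℕ := fun n => n - d + (⌊η / 4 * d⌋₊ + 1) with hT
  set W : ℕ → F[X] → ℝ := fun n Q => |∑ s ∈ SF F (n / 2) \ SF F (T n), ET n s Q| with hW
  set R := (range (2 * d + 1)).filter (fun n => d < n ∧ (n:ℝ) ≤ (2 - ε) * d) with hR'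
  set B : ℕ → Finset F[X] := fun n => (Ir F d).filter (fun Q => q ^ n * (η * d / 8) < W n Q) with hB
  have hsub : (Ir F d).filter (fun Q => BadG ε η Q) ⊆ R.biUnion B := by
    intro Q hQ
    rw [mem_filter] at hQ
    obtain ⟨hQI, n, hn1, hn2, hn3⟩ := hQ
    have hQd := (mem_Ir.mp hQI).2.2
    rw [hQd] at hn1 hn2 hn3
    have hn2d : n < 2 * d + 1 := by
      have : (n:ℝ) < 2 * d + 1 := by nlinarith
      exact_mod_cast this
    rw [mem_biUnion]
    refine ⟨n, ?_, ?_⟩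
    · rw [hR', mem_filter, mem_range]
      exact ⟨hn2d, hn1, hn2⟩
    · rw [hB, mem_filter]
      refine ⟨hQI, ?_⟩
      by_contra hcon
      rw [not_lt] at hcon
      have h1 := hN₁ F d n Q (by omega) hQI hn1 hn2 hcon
      linarith
  have hcard : ∀ n ∈ R, ((B n).card : ℝ) ≤ 24 * Real.exp 6 * 16 / η * (d:ℝ) ^ 4 * (q ^ d * (y * y)) := by
    intro n hn
    rw [hR', mem_filter, mem_range] at hn
    obtain ⟨hn1, hn2, hn3⟩ := hn
    have hnr : n / 2 < d := by
      have h1 : (n:ℝ) < 2 * d := by nlinarith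
      have h2 : n < 2 * d := by exact_mod_cast h1
      omega
    have h1 := hE F n d (n / 2) (T n) (by omega) hnr hn2
    rw [← hqd] at h1
    have h2 : ((B n).card : ℝ) * (q ^ n * (η * d / 8)) ≤ ∑ Q ∈ Ir F d, W n Q := by
      calc ((B n).card : ℝ) * (q ^ n * (η * d / 8)) = ∑ Q ∈ B n, q ^ n * (η * d / 8) := by
            rw [sum_const, nsmul_eq_mul]
        _ ≤ ∑ Q ∈ B n, W n Q := sum_le_sum (fun Q hQ => (mem_filter.mp hQ).2.le)
        _ ≤ _ := sum_le_sum_of_subset_of_nonneg (filter_subset _ _) (fun _ _ _ => abs_nonneg _)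
    have h3 : √(q ^ d * q ^ (n / 2)) ≤ q ^ d * (y * y) := by
      have h4 : q ^ (n / 2) ≤ q ^ d * ((y * y) * (y * y)) := by
        have e1 : q ^ d * ((y * y) * (y * y)) = q ^ ((d:ℝ) + (-(ε / 8 * d) + -(ε / 8 * d) +
            (-(ε / 8 * d) + -(ε / 8 * d)))) := by
          rw [Real.rpow_add hq0, Real.rpow_add hq0, Real.rpow_add hq0, Real.rpow_natCast]
        rw [e1, ← Real.rpow_natCast q (n / 2)]
        apply Real.rpow_le_rpow_of_exponent_le (by linarith)
        have h5 : 2 * (n / 2) ≤ n := by omega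
        have h6 : 2 * ((n / 2 : ℕ) : ℝ) ≤ n := by exact_mod_cast h5
        linarith
      rw [Real.sqrt_le_left (by positivity)]
      calc q ^ d * q ^ (n / 2) ≤ q ^ d * (q ^ d * ((y * y) * (y * y))) :=
            mul_le_mul_of_nonneg_left h4 (by positivity)
        _ = _ := by ring
    have h5 : (n:ℝ) ^ 4 ≤ 16 * (d:ℝ) ^ 4 := by
      have h6 : (n:ℝ) ≤ 2 * d := by nlinarith
      calc (n:ℝ) ^ 4 ≤ (2 * d) ^ 4 := pow_le_pow_left₀ (Nat.cast_nonneg _) h6 4
        _ = _ := by ring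
    have hqn : 0 < q ^ n := by positivity
    have h7 : ((B n).card : ℝ) * (q ^ n * (η * d / 8)) ≤
        3 * Real.exp 6 * (16 * (d:ℝ) ^ 4) * (q ^ n * (q ^ d * (y * y))) := by
      refine (h2.trans h1).trans ?_
      apply mul_le_mul _ _ (by positivity) (by positivity)
      · exact mul_le_mul_of_nonneg_left h5 (by positivity)
      · exact mul_le_mul_of_nonneg_left h3 hqn.le
    have h8 : ((B n).card : ℝ) * (q ^ n * (η / 4)) ≤ ((B n).card : ℝ) * (q ^ n * (η * d / 8)) := by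
      apply mul_le_mul_of_nonneg_left _ (Nat.cast_nonneg _)
      apply mul_le_mul_of_nonneg_left _ hqn.le
      nlinarith
    have h9 := h8.trans h7
    have h10 : 24 * Real.exp 6 * 16 / η * (d:ℝ) ^ 4 * (q ^ d * (y * y)) * (q ^ n * (η / 4)) =
        2 * (3 * Real.exp 6 * (16 * (d:ℝ) ^ 4) * (q ^ n * (q ^ d * (y * y)))) := by
      field_simp
      ring
    have h11 : 0 < q ^ n * (η / 4) := by positivity
    have h12 : 0 ≤ 3 * Real.exp 6 * (16 * (d:ℝ) ^ 4) * (q ^ n * (q ^ d * (y * y))) := by positivity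
    refine le_of_mul_le_mul_right ?_ h11
    rw [h10]
    linarith
  have hfin : (((Ir F d).filter (fun Q => BadG ε η Q)).card : ℝ) ≤
      ∑ n ∈ R, ((B n).card : ℝ) := by
    have h1 := (card_le_card hsub).trans card_biUnion_le
    exact_mod_cast h1
  refine hfin.trans ((sum_le_sum hcard).trans ?_)
  rw [sum_const, nsmul_eq_mul]
  have hRc : (R.card : ℝ) ≤ 3 * d := by
    have h1 : R.card ≤ 2 * d + 1 := by
      refine (card_le_card (filter_subset _ _)).trans ?_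
      rw [card_range]
    have h2 : (R.card : ℝ) ≤ 2 * d + 1 := by exact_mod_cast h1
    linarith
  have h1 : ((2:ℝ) ^ (ε / 8)) ^ d * y ≤ 1 := by
    have h2 : ((2:ℝ) ^ (ε / 8)) ^ d ≤ q ^ (ε / 8 * d) := by
      rw [Real.rpow_mul hq0.le, Real.rpow_natCast]
      exact pow_le_pow_left₀ (by positivity) (Real.rpow_le_rpow (by norm_num) hq (by linarith)) d
    calc ((2:ℝ) ^ (ε / 8)) ^ d * y ≤ q ^ (ε / 8 * d) * y := mul_le_mul_of_nonneg_right h2 hy0.le
      _ = 1 := by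
        rw [hy, ← Real.rpow_add hq0, add_neg_cancel, Real.rpow_zero]
  have h2 := hN₂ d (by omega)
  have h3 : (R.card : ℝ) * (24 * Real.exp 6 * 16 / η * (d:ℝ) ^ 4 * (q ^ d * (y * y))) ≤
      3 * d * (24 * Real.exp 6 * 16 / η * (d:ℝ) ^ 4 * (q ^ d * (y * y))) :=
    mul_le_mul_of_nonneg_right hRc (by positivity)
  refine h3.trans ?_
  have h4 : 3 * d * (24 * Real.exp 6 * 16 / η * (d:ℝ) ^ 4 * (q ^ d * (y * y))) =
      (24 * Real.exp 6 * 48 / η * (d:ℝ) ^ 5) * y * (q ^ d * y) := by ring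
  rw [h4]
  calc (24 * Real.exp 6 * 48 / η * (d:ℝ) ^ 5) * y * (q ^ d * y)
      ≤ ((2:ℝ) ^ (ε / 8)) ^ d * y * (q ^ d * y) := by
        apply mul_le_mul_of_nonneg_right _ (by positivity)
        exact mul_le_mul_of_nonneg_right h2 hy0.le
    _ ≤ 1 * (q ^ d * y) := mul_le_mul_of_nonneg_right h1 (by positivity)
    _ = _ := one_mul _

end Pool.Agent.H523.ZG
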