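import Pool.Agent.H523.ZG.K

/-! The numerical inequality for the kernel (proof by helper782, task ZG K4, with a margin). -/

set_option autoImplicit false
set_option linter.all false

open Finset
open Pool.Agent.H523.ZG

namespace Pool.Agent.H523.ZG.K4

noncomputable def Q2a (x : ℝ) : ℝ := -192 / 77 * x ^ 1 + 144 / 35 * x ^ 3 - 2 / 3 * x ^ 4 - 104 / 35 * x ^ 5 + 5 / 3 * x ^ 6 - 41 / 280 * x ^ 8 + 1 / 105 * x ^ 10 - 1 / 3696 * x ^ 12

theorem hQ2a (x : ℝ) : HasDerivAt Q2a (B2 x) x := by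
  have h := (((((((((hasDerivAt_pow 1 x).const_mul (-192 / 77 : ℝ))).fun_add ((hasDerivAt_pow 3 x).const_mul (144 / 35 : ℝ))).fun_sub ((hasDerivAt_pow 4 x).const_mul (2 / 3 : ℝ))).fun_sub ((hasDerivAt_pow 5 x).const_mul (104 / 35 : ℝ))).fun_add ((hasDerivAt_pow 6 x).const_mul (5 / 3 : ℝ))).fun_sub ((hasDerivAt_pow 8 x).const_mul (41 / 280 : ℝ))).fun_add ((hasDerivAt_pow 10 x).const_mul (1 / 105 : ℝ))).fun_sub ((hasDerivAt_pow 12 x).const_mul (1 / 3696 : ℝ))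
  refine h.congr_deriv ?_
  unfold B2
  norm_num
  ring

noncomputable def Q2b (x : ℝ) : ℝ := 33472 / 45045 * x ^ 1 - 32 / 77 * x ^ 3 + 36 / 175 * x ^ 5 - 1 / 45 * x ^ 6 - 52 / 735 * x ^ 7 + 5 / 168 * x ^ 8 - 41 / 25200 * x ^ 10 + 1 / 13860 * x ^ 12 - 1 / 672672 * x ^ 14

theorem hQ2b (x : ℝ) : HasDerivAt Q2b (Bx x) x := by
  have h := ((((((((((hasDerivAt_pow 1 x).const_mul (33472 / 45045 : ℝ))).fun_sub ((hasDerivAt_pow 3 x).const_mul (32 / 77 : ℝ))).fun_add ((hasDerivAt_pow 5 x).const_mul (36 / 175 : ℝ))).fun_sub ((hasDerivAt_pow 6 x).const_mul (1 / 45 : ℝ))).fun_sub ((hasDerivAt_pow 7 x).const_mul (52 / 735 : ℝ))).fun_add ((hasDerivAt_pow 8 x).const_mul (5 / 168 : ℝ))).fun_sub ((hasDerivAt_pow 10 x).const_mul (41 / 25200 : ℝ))).fun_add ((hasDerivAt_pow 12 x).const_mul (1 / 13860 : ℝ))).fun_sub ((hasDerivAt_pow 14 x).const_mul (1 / 672672 : ℝ))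
  refine h.congr_deriv ?_
  unfold Bx
  norm_num
  ring

noncomputable def Q1a (x : ℝ) : ℝ := -96 / 77 * x ^ 2 + 108 / 35 * x ^ 4 - 8 / 15 * x ^ 5 - 52 / 21 * x ^ 6 + 10 / 7 * x ^ 7 - 41 / 315 * x ^ 9 + 2 / 231 * x ^ 11 - 1 / 4004 * x ^ 13

theorem hQ1a (x : ℝ) : HasDerivAt Q1a (x * B2 x) x := by
  have h := (((((((((hasDerivAt_pow 2 x).const_mul (-96 / 77 : ℝ))).fun_add ((hasDerivAt_pow 4 x).const_mul (108 / 35 : ℝ))).fun_sub ((hasDerivAt_pow 5 x).const_mul (8 / 15 : ℝ))).fun_sub ((hasDerivAt_pow 6 x).const_mul (52 / 21 : ℝ))).fun_add ((hasDerivAt_pow 7 x).const_mul (10 / 7 : ℝ))).fun_sub ((hasDerivAt_pow 9 x).const_mul (41 / 315 : ℝ))).fun_add ((hasDerivAt_pow 11 x).const_mul (2 / 231 : ℝ))).fun_sub ((hasDerivAt_pow 13 x).const_mul (1 / 4004 : ℝ))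
  refine h.congr_deriv ?_
  unfold B2
  norm_num
  ring

noncomputable def Q1b (x : ℝ) : ℝ := 16736 / 45045 * x ^ 2 - 24 / 77 * x ^ 4 + 6 / 35 * x ^ 6 - 2 / 105 * x ^ 7 - 13 / 210 * x ^ 8 + 5 / 189 * x ^ 9 - 41 / 27720 * x ^ 11 + 1 / 15015 * x ^ 13 - 1 / 720720 * x ^ 15

theorem hQ1b (x : ℝ) : HasDerivAt Q1b (x * Bx x) x := by
  have h := ((((((((((hasDerivAt_pow 2 x).const_mul (16736 / 45045 : ℝ))).fun_sub ((hasDerivAt_pow 4 x).const_mul (24 / 77 : ℝ))).fun_add ((hasDerivAt_pow 6 x).const_mul (6 / 35 : ℝ))).fun_sub ((hasDerivAt_pow 7 x).const_mul (2 / 105 : ℝ))).fun_sub ((hasDerivAt_pow 8 x).const_mul (13 / 210 : ℝ))).fun_add ((hasDerivAt_pow 9 x).const_mul (5 / 189 : ℝ))).fun_sub ((hasDerivAt_pow 11 x).const_mul (41 / 27720 : ℝ))).fun_add ((hasDerivAt_pow 13 x).const_mul (1 / 15015 : ℝ))).fun_sub ((hasDerivAt_pow 15 x).const_mul (1 / 720720 : ℝ))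
  refine h.congr_deriv ?_
  unfold Bx
  norm_num
  ring


/-- `A` -/
noncomputable def Am (x : ℝ) : ℝ := (B2 x + cc ^ 2 * Bx x) / 2

noncomputable def q2 (x : ℝ) : ℝ := (Q2a x + cc ^ 2 * Q2b x) / 2

noncomputable def q1 (x : ℝ) : ℝ := (Q1a x + cc ^ 2 * Q1b x) / 2

theorem hq2 (x : ℝ) : HasDerivAt q2 (Am x) x :=
  ((hQ2a x).fun_add ((hQ2b x).const_mul (cc ^ 2))).div_const 2

theorem hq1 (x : ℝ) : HasDerivAt q1 (x * Am x) x := by
  have h : HasDerivAt q1 _ x := ((hQ1a x).fun_add ((hQ1b x).const_mul (cc ^ 2))).div_const 2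
  refine h.congr_deriv ?_
  unfold Am
  ring

/-- Lipschitz on `[0, 2]` -/
theorem lip (f : ℝ → ℝ) (hf : ContDiff ℝ 1 f) : ∃ L : ℝ, 0 ≤ L ∧
    ∀ x ∈ Set.Icc (0 : ℝ) 2, ∀ y ∈ Set.Icc (0 : ℝ) 2, |f y - f x| ≤ L * |y - x| := by
  obtain ⟨K, hK⟩ := hf.contDiffOn.exists_lipschitzOnWith (s := Set.Icc (0 : ℝ) 2) one_ne_zero
    (convex_Icc _ _) isCompact_Icc
  refine ⟨K, K.2, fun x hx y hy => ?_⟩
  have h := hK.dist_le_mul y hy x hx
  rwa [Real.dist_eq, Real.dist_eq] at h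

theorem step {F f : ℝ → ℝ} (hF : ∀ x, HasDerivAt F (f x) x) {L : ℝ} (hL0 : 0 ≤ L)
    (hL : ∀ x ∈ Set.Icc (0 : ℝ) 2, ∀ y ∈ Set.Icc (0 : ℝ) 2, |f y - f x| ≤ L * |y - x|)
    {d : ℕ} (hd : 1 ≤ d) {m : ℕ} (hm : m + 1 ≤ 2 * d) :
    |f (((m + 1 : ℕ) : ℝ) / d) - d * (F (((m + 1 : ℕ) : ℝ) / d) - F ((m : ℝ) / d))| ≤ L / d := by
  have hd0 : (0 : ℝ) < d := by exact_mod_cast hd
  have hab : (m : ℝ) / d < ((m + 1 : ℕ) : ℝ) / d := by
    rw [div_lt_div_iff_of_pos_right hd0]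
    push_cast
    linarith
  obtain ⟨c, hc, hce⟩ := exists_hasDerivAt_eq_slope F f hab
    (fun x _ => (hF x).continuousAt.continuousWithinAt) (fun x _ => hF x)
  have h1 : ((m + 1 : ℕ) : ℝ) / d - (m : ℝ) / d = 1 / d := by
    push_cast
    ring
  rw [h1] at hce
  have h2 : d * (F (((m + 1 : ℕ) : ℝ) / d) - F ((m : ℝ) / d)) = f c := by
    rw [hce]
    field_simp
  rw [h2]
  have h3 : (0 : ℝ) ≤ (m : ℝ) / d := by positivity
  have h4 : ((m + 1 : ℕ) : ℝ) / d ≤ 2 := by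
    rw [div_le_iff₀ hd0]
    exact_mod_cast hm
  have h5 := hL c ⟨by linarith [hc.1], by linarith [hc.2]⟩ (((m + 1 : ℕ) : ℝ) / d)
    ⟨by linarith, h4⟩
  refine h5.trans ?_
  rw [abs_of_nonneg (by linarith [hc.2])]
  calc L * (((m + 1 : ℕ) : ℝ) / d - c) ≤ L * (1 / d) :=
        mul_le_mul_of_nonneg_left (by linarith [hc.1]) hL0
    _ = L / d := by ring

/-- Riemann sums -/
theorem riem {F f : ℝ → ℝ} (hF : ∀ x, HasDerivAt F (f x) x) {L : ℝ} (hL0 : 0 ≤ L)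
    (hL : ∀ x ∈ Set.Icc (0 : ℝ) 2, ∀ y ∈ Set.Icc (0 : ℝ) 2, |f y - f x| ≤ L * |y - x|)
    {d : ℕ} (hd : 1 ≤ d) {M N : ℕ} (hMN : M ≤ N) (hN : N ≤ 2 * d) :
    |∑ m ∈ Ioc M N, f ((m : ℝ) / d) - d * (F ((N : ℝ) / d) - F ((M : ℝ) / d))| ≤ 2 * L := by
  have hd0 : (0 : ℝ) < d := by exact_mod_cast hd
  have key : ∀ N, M ≤ N → N ≤ 2 * d →
      |∑ m ∈ Ioc M N, f ((m : ℝ) / d) - d * (F ((N : ℝ) / d) - F ((M : ℝ) / d))| ≤
        L / d * ((N : ℝ) - M) := by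
    intro N hMN
    induction N, hMN using Nat.le_induction with
    | base => intro _; simp
    | succ N hMN ih =>
      intro hN
      have h1 := ih (by omega)
      have h2 := step hF hL0 hL hd (m := N) hN
      rw [sum_Ioc_succ_top hMN]
      have h3 : ∑ k ∈ Ioc M N, f ((k : ℝ) / d) + f (((N + 1 : ℕ) : ℝ) / d) -
          d * (F (((N + 1 : ℕ) : ℝ) / d) - F ((M : ℝ) / d)) =
          (∑ k ∈ Ioc M N, f ((k : ℝ) / d) - d * (F ((N : ℝ) / d) - F ((M : ℝ) / d))) +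
          (f (((N + 1 : ℕ) : ℝ) / d) - d * (F (((N + 1 : ℕ) : ℝ) / d) - F ((N : ℝ) / d))) := by
        ring
      rw [h3]
      refine (abs_add_le _ _).trans ((add_le_add h1 h2).trans (le_of_eq ?_))
      push_cast
      ring
  refine (key N hMN hN).trans ?_
  have h4 : (N : ℝ) ≤ 2 * d := by exact_mod_cast hN
  have h5 : (0 : ℝ) ≤ M := Nat.cast_nonneg _
  calc L / d * ((N : ℝ) - M) ≤ L / d * (2 * d) :=
        mul_le_mul_of_nonneg_left (by linarith) (by positivity)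
    _ = 2 * L := by field_simp

theorem Am_cd : ContDiff ℝ 1 Am := by
  unfold Am B2 Bx
  fun_prop

theorem xAm_cd : ContDiff ℝ 1 (fun x => x * Am x) := by
  unfold Am B2 Bx
  fun_prop

theorem q2_cd : ContDiff ℝ 1 q2 := by
  unfold q2 Q2a Q2b
  fun_prop

theorem q1_cd : ContDiff ℝ 1 q1 := by
  unfold q1 Q1a Q1b
  fun_prop

theorem cc_bd : 9.4395 ≤ cc ^ 2 ∧ cc ^ 2 ≤ 10 := by
  have h1 := Real.pi_gt_d4
  have h2 := Real.pi_lt_d4
  unfold cc
  constructor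
  · nlinarith
  · nlinarith

/-- bound on `[0, 2]` -/
theorem Am_bd {x : ℝ} (hx : x ∈ Set.Icc (0 : ℝ) 2) : |Am x| ≤ 1000 := by
  have hp : ∀ k : ℕ, 0 ≤ x ^ k ∧ x ^ k ≤ 2 ^ k := fun k =>
    ⟨pow_nonneg hx.1 k, pow_le_pow_left₀ hx.1 hx.2 k⟩
  have h1 : |B2 x| ≤ 840 := by
    unfold B2
    rw [abs_le]
    have := hp 2; have := hp 3; have := hp 4; have := hp 5; have := hp 7; have := hp 9
    have := hp 11
    norm_num at *
    constructor <;> linarith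
  have h2 : |Bx x| ≤ 100 := by
    unfold Bx
    rw [abs_le]
    have := hp 2; have := hp 4; have := hp 5; have := hp 6; have := hp 7; have := hp 9
    have := hp 11; have := hp 13
    norm_num at *
    constructor <;> linarith
  have h3 : |cc ^ 2 * Bx x| ≤ 10 * 100 := by
    rw [abs_mul, abs_of_nonneg (by positivity)]
    exact mul_le_mul cc_bd.2 h2 (abs_nonneg _) (by norm_num)
  unfold Am
  rw [abs_div, abs_two]
  have h4 := abs_add_le (B2 x) (cc ^ 2 * Bx x)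
  linarith

/-- `η` -/
noncomputable def et : ℝ := 1 / 1000000000

theorem numeric : 4 * et * 1000 + 1 / 5000 + 7 * et <
    Am 0 + 2 * (q1 1 - q1 0 + (q2 (4 / 3 - et) - q2 1) +
      (1 - et) * (q2 (2 - et) - q2 (4 / 3 - et)) - (q1 (2 - et) - q1 (4 / 3 - et)) / 2) -
      2 * (q2 2 - q2 0) := by
  have h := cc_bd.1
  have h2 := cc_bd.2
  unfold Am q1 q2 B2 Bx Q1a Q1b Q2a Q2b et
  norm_num
  nlinarith

theorem numeric2 : q2 2 - q2 0 ≤ 3 := by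
  have h := cc_bd.1
  have h2 := cc_bd.2
  unfold q2 Q2a Q2b
  norm_num
  nlinarith

theorem Am0 : 2 ≤ Am 0 ∧ Am 0 ≤ 1000 := by
  have h := cc_bd.1
  have h2 := cc_bd.2
  unfold Am B2 Bx
  norm_num
  constructor <;> nlinarith

/-- the term of the sum is bounded below -/
theorem term_ge {C : ℝ} (hC0 : 0 ≤ C) {d : ℕ} (hd : 1 ≤ d) {m : ℕ} (hm : m ≤ 2 * d) {am : ℝ}
    (ha : |am - Am ((m : ℝ) / d) / d| ≤ C / (d : ℝ) ^ 2) {M1 M2 : ℕ}
    (h1 : (m : ℝ) ≤ (4 / 3 - et) * d ↔ m ≤ M1) (h2 : (m : ℝ) ≤ (2 - et) * d ↔ m ≤ M2)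
    (hd1 : d ≤ M1) :
    (if m ≤ d then (m : ℝ) / d * Am ((m : ℝ) / d) else if m ≤ M1 then Am ((m : ℝ) / d)
      else if m ≤ M2 then (1 - et) * Am ((m : ℝ) / d) - (m : ℝ) / d * Am ((m : ℝ) / d) / 2
      else 0) - (C / d + et * (1000 + C / d)) ≤
    (if (m:ℝ) ≤ (4 / 3 - et) * d then am * min (m:ℝ) d - et * d * |am|
        else if (m:ℝ) ≤ (2 - et) * d then am * (d - (m:ℝ) / 2 - et * d) else 0) := by
  have hd0 : (0 : ℝ) < d := by exact_mod_cast hd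
  have het : 0 < et := by unfold et; norm_num
  have het1 : et ≤ 1 / 100 := by unfold et; norm_num
  have hCd : 0 ≤ C / d := by positivity
  have hE : 0 ≤ et * (1000 + C / d) := by positivity
  have hm2 : (m : ℝ) ≤ 2 * d := by exact_mod_cast hm
  have hm0 : (0 : ℝ) ≤ m := Nat.cast_nonneg _
  set A := Am ((m : ℝ) / d) with hA
  have hAb : |A| ≤ 1000 := by
    refine Am_bd ⟨by positivity, ?_⟩
    rw [div_le_iff₀ hd0]
    exact hm2
  have hCd2 : C / (d : ℝ) ^ 2 * d = C / d := by field_simp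
  obtain ⟨ha1, ha2⟩ := abs_le.mp ha
  -- general multiplication
  have hmul : ∀ w : ℝ, |w| ≤ d → A / d * w - C / d ≤ am * w := by
    intro w hw
    have h3 : |(am - A / d) * w| ≤ C / (d : ℝ) ^ 2 * d := by
      rw [abs_mul]
      exact mul_le_mul ha hw (abs_nonneg _) (by positivity)
    rw [hCd2] at h3
    have h4 := (abs_le.mp h3).1
    nlinarith
  have habs : et * d * |am| ≤ et * (1000 + C / d) := by
    have h3 : |am| ≤ 1000 / d + C / (d : ℝ) ^ 2 := by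
      have h4 : |am| ≤ |am - A / d| + |A / d| := by
        have h5 : am = (am - A / d) + A / d := by ring
        calc |am| = |(am - A / d) + A / d| := by rw [← h5]
          _ ≤ _ := abs_add_le _ _
      have h6 : |A / d| ≤ 1000 / d := by
        rw [abs_div, abs_of_pos hd0]
        exact div_le_div_of_nonneg_right hAb hd0.le
      linarith
    calc et * d * |am| ≤ et * d * (1000 / d + C / (d : ℝ) ^ 2) :=
          mul_le_mul_of_nonneg_left h3 (by positivity)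
      _ = et * (1000 + C / d) := by field_simp
  by_cases hc1 : (m : ℝ) ≤ (4 / 3 - et) * d
  · rw [if_pos hc1]
    have hM1 := h1.mp hc1
    by_cases hmd : m ≤ d
    · rw [if_pos hmd]
      have hmd' : (m : ℝ) ≤ d := by exact_mod_cast hmd
      rw [min_eq_left hmd']
      have h3 := hmul m (by rw [abs_of_nonneg hm0]; exact hmd')
      have h4 : A / d * m = (m : ℝ) / d * A := by ring
      rw [h4] at h3
      linarith
    · rw [if_neg hmd, if_pos hM1]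
      have hmd' : (d : ℝ) ≤ m := by exact_mod_cast (not_le.mp hmd).le
      rw [min_eq_right hmd']
      have h3 := hmul d (by rw [abs_of_nonneg hd0.le])
      have h4 : A / d * d = A := by field_simp
      rw [h4] at h3
      linarith
  · rw [if_neg hc1]
    have hM1 : ¬ m ≤ M1 := fun h => hc1 (h1.mpr h)
    have hmd : ¬ m ≤ d := fun h => hM1 (h.trans hd1)
    rw [if_neg hmd, if_neg hM1]
    by_cases hc2 : (m : ℝ) ≤ (2 - et) * d
    · rw [if_pos hc2, if_pos (h2.mp hc2)]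
      have h3 := hmul (d - (m : ℝ) / 2 - et * d) (by
        rw [abs_le]
        constructor
        · nlinarith
        · nlinarith)
      have h4 : A / d * (d - (m : ℝ) / 2 - et * d) = (1 - et) * A - (m : ℝ) / d * A / 2 := by
        field_simp
        ring
      rw [h4] at h3
      linarith
    · rw [if_neg hc2, if_neg fun h => hc2 (h2.mpr h)]
      linarith

/-- the final arithmetic -/
theorem arith {d C A0 L1 L2 K1 K2 e S0 S1 S2 S3 S5 Sa T a0 z2 : ℝ}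
    {q11 q10 q2u q2v q21 q22 q20 q1u q1v q2M q2N q1M q1N W : ℝ}
    (hW : W = 5 * A0 + 11 * C + 6 * K2 + 2 * K1 + 6 * L1 + 12 * L2) (hdW : 5000 * (W + 1) ≤ d)
    (hd0 : 0 < d) (he : 0 < e) (he1 : e ≤ 1 / 100) (hC0 : 0 ≤ C) (hL1 : 0 ≤ L1) (hL2 : 0 ≤ L2)
    (hK1 : 0 ≤ K1) (hK2 : 0 ≤ K2)
    (r1 : -(2 * L1) ≤ S0 - d * (q11 - q10)) (r2 : -(2 * L2) ≤ S1 - d * (q2M - q21))
    (r3 : -(2 * L2) ≤ S2 - d * (q2N - q2M)) (r4 : S3 - d * (q1N - q1M) ≤ 2 * L1)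
    (r5 : S5 - d * (q22 - q20) ≤ 2 * L2)
    (k1 : -K2 ≤ d * q2M - d * q2u) (k1' : d * q2M - d * q2u ≤ K2) (k2 : -K2 ≤ d * q2N - d * q2v)
    (k3 : -K1 ≤ d * q1M - d * q1u) (k4 : d * q1N - d * q1v ≤ K1)
    (hl : d * Sa ≤ S5 + 2 * C)
    (hr : S0 + S1 + ((1 - e) * S2 - S3 / 2) - (2 * C + 2 * e * (1000 * d + C)) ≤ T)
    (h7 : A0 * (d - 4) - C ≤ z2) (h14 : d * a0 ≤ A0 + C)
    (hnum : d * (4 * e * 1000 + 1 / 5000) ≤ d * (A0 + 2 * (q11 - q10 + (q2u - q21) +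
      (1 - e) * (q2v - q2u) - (q1v - q1u) / 2) - 2 * (q22 - q20))) :
    d * (a0 + 2 * Sa) < z2 + 2 * T := by
  have p0 : d * (q2v - q2u) - 2 * K2 - 2 * L2 ≤ S2 := by linarith
  have p1 : (1 - e) * (d * (q2v - q2u) - 2 * K2 - 2 * L2) ≤ (1 - e) * S2 :=
    mul_le_mul_of_nonneg_left p0 (by linarith)
  have p2 : 0 ≤ e * (2 * K2 + 2 * L2) := by positivity
  have p3 : e * C ≤ 1 / 100 * C := mul_le_mul_of_nonneg_right he1 hC0
  have p4 : (1 - e) * (d * (q2v - q2u) - 2 * K2 - 2 * L2) =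
      (1 - e) * (d * (q2v - q2u)) - 2 * K2 - 2 * L2 + e * (2 * K2 + 2 * L2) := by ring
  rw [p4] at p1
  have p5 : d * (A0 + 2 * (q11 - q10 + (q2u - q21) +
      (1 - e) * (q2v - q2u) - (q1v - q1u) / 2) - 2 * (q22 - q20)) =
      d * A0 + 2 * d * q11 - 2 * d * q10 + 2 * (d * q2u) - 2 * (d * q21) +
      2 * ((1 - e) * (d * (q2v - q2u))) - (d * q1v) + (d * q1u) - 2 * (d * q22) + 2 * (d * q20) := by
    ring
  rw [p5] at hnum
  nlinarith

theorem main : S_K4p := by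
  rintro a ⟨C, hC⟩
  have hC0 : 0 ≤ C := by
    have h := (abs_nonneg _).trans (hC 1 le_rfl 0 (by norm_num))
    simpa using h
  obtain ⟨L2, hL20, hL2⟩ := lip Am Am_cd
  obtain ⟨L1, hL10, hL1⟩ := lip (fun x => x * Am x) xAm_cd
  obtain ⟨K2, hK20, hK2⟩ := lip q2 q2_cd
  obtain ⟨K1, hK10, hK1⟩ := lip q1 q1_cd
  have het : 0 < et := by unfold et; norm_num
  have het1 : et ≤ 1 / 100 := by unfold et; norm_num
  set W : ℝ := 5 * Am 0 + 11 * C + 6 * K2 + 2 * K1 + 6 * L1 + 12 * L2 with hW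
  have hA0 := Am0
  have hW0 : C ≤ W := by
    rw [hW]
    linarith [hA0.1]
  refine ⟨et, het, het1, ⌈5000 * (W + 1)⌉₊ + 100, fun d hd => ?_⟩
  have hd1 : 1 ≤ d := by omega
  have hd100 : (100 : ℝ) ≤ d := by
    have : 100 ≤ d := by omega
    exact_mod_cast this
  have hdW : 5000 * (W + 1) ≤ d := by
    refine (Nat.le_ceil _).trans ?_
    have : ⌈5000 * (W + 1)⌉₊ ≤ d := by omega
    exact_mod_cast this
  have hd0 : (0 : ℝ) < d := by linarith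
  have ha : ∀ m : ℕ, m ≤ 2 * d → |a d m - Am ((m : ℝ) / d) / d| ≤ C / (d : ℝ) ^ 2 := by
    intro m hm
    have h := hC d hd1 m hm
    have h1 : 1 / (2 * (d : ℝ)) * (B2 ((m:ℝ) / d) + cc ^ 2 * Bx ((m:ℝ) / d)) =
        Am ((m : ℝ) / d) / d := by
      unfold Am
      field_simp
    rwa [h1] at h
  have ha0 := ha 0 (by omega)
  rw [Nat.cast_zero, zero_div] at ha0
  have ha01 : Am 0 / d - C / (d : ℝ) ^ 2 ≤ a d 0 := by linarith [(abs_le.mp ha0).1]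
  have ha02 : a d 0 ≤ Am 0 / d + C / (d : ℝ) ^ 2 := by linarith [(abs_le.mp ha0).2]
  constructor
  · refine le_trans ?_ ha01
    have h : Am 0 / d - C / (d : ℝ) ^ 2 = (Am 0 * d - C) / (d : ℝ) ^ 2 := by field_simp
    rw [h]
    apply div_nonneg _ (by positivity)
    nlinarith [hA0.1]
  -- the floors
  set M1 : ℕ := ⌊(4 / 3 - et) * d⌋₊ with hM1
  set M2 : ℕ := ⌊(2 - et) * d⌋₊ with hM2
  have hu0 : 0 ≤ (4 / 3 - et) * d := by nlinarith
  have hv0 : 0 ≤ (2 - et) * d := by nlinarith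
  have e1 : ∀ m : ℕ, (m : ℝ) ≤ (4 / 3 - et) * d ↔ m ≤ M1 := fun m => (Nat.le_floor_iff hu0).symm
  have e2 : ∀ m : ℕ, (m : ℝ) ≤ (2 - et) * d ↔ m ≤ M2 := fun m => (Nat.le_floor_iff hv0).symm
  have hdM1 : d ≤ M1 := (e1 d).mp (by nlinarith)
  have hM12 : M1 ≤ M2 := Nat.floor_mono (by nlinarith)
  have hM2d : M2 ≤ 2 * d := by
    have h : (M2 : ℝ) ≤ (2 - et) * d := Nat.floor_le hv0
    have h' : (M2 : ℝ) ≤ ((2 * d : ℕ) : ℝ) := by push_cast; nlinarith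
    exact_mod_cast h'
  have f1 : |(M1 : ℝ) / d - (4 / 3 - et)| ≤ 1 / d := by
    have h1 : (M1 : ℝ) ≤ (4 / 3 - et) * d := Nat.floor_le hu0
    have h2 : (4 / 3 - et) * d < M1 + 1 := Nat.lt_floor_add_one _
    have h3 : (M1 : ℝ) / d - (4 / 3 - et) = (M1 - (4 / 3 - et) * d) / d := by field_simp
    rw [h3, abs_div, abs_of_pos hd0]
    refine div_le_div_of_nonneg_right ?_ hd0.le
    rw [abs_le]
    constructor <;> linarith
  have f2 : |(M2 : ℝ) / d - (2 - et)| ≤ 1 / d := by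
    have h1 : (M2 : ℝ) ≤ (2 - et) * d := Nat.floor_le hv0
    have h2 : (2 - et) * d < M2 + 1 := Nat.lt_floor_add_one _
    have h3 : (M2 : ℝ) / d - (2 - et) = (M2 - (2 - et) * d) / d := by field_simp
    rw [h3, abs_div, abs_of_pos hd0]
    refine div_le_div_of_nonneg_right ?_ hd0.le
    rw [abs_le]
    constructor <;> linarith
  have g1 : (M1 : ℝ) / d ∈ Set.Icc (0 : ℝ) 2 := by
    refine ⟨by positivity, ?_⟩
    rw [div_le_iff₀ hd0]
    exact_mod_cast hM12.trans hM2d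
  have g2 : (M2 : ℝ) / d ∈ Set.Icc (0 : ℝ) 2 := by
    refine ⟨by positivity, ?_⟩
    rw [div_le_iff₀ hd0]
    exact_mod_cast hM2d
  have gu : (4 / 3 - et) ∈ Set.Icc (0 : ℝ) 2 := ⟨by linarith, by linarith⟩
  have gv : (2 - et) ∈ Set.Icc (0 : ℝ) 2 := ⟨by linarith, by linarith⟩
  have lipd : ∀ (f : ℝ → ℝ) (K : ℝ), 0 ≤ K → (∀ x ∈ Set.Icc (0 : ℝ) 2, ∀ y ∈ Set.Icc (0 : ℝ) 2,
      |f y - f x| ≤ K * |y - x|) → ∀ x ∈ Set.Icc (0 : ℝ) 2, ∀ y ∈ Set.Icc (0 : ℝ) 2,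
      |y - x| ≤ 1 / d → |d * f y - d * f x| ≤ K := by
    intro f K hK hf x hx y hy hxy
    rw [← mul_sub, abs_mul, abs_of_pos hd0]
    calc (d : ℝ) * |f y - f x| ≤ d * (K * (1 / d)) :=
          mul_le_mul_of_nonneg_left ((hf x hx y hy).trans (mul_le_mul_of_nonneg_left hxy hK)) hd0.le
      _ = K := by field_simp
  have k1 := abs_le.mp (lipd q2 K2 hK20 hK2 _ gu _ g1 f1)
  have k2 := abs_le.mp (lipd q2 K2 hK20 hK2 _ gv _ g2 f2)
  have k3 := abs_le.mp (lipd q1 K1 hK10 hK1 _ gu _ g1 f1)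
  have k4 := abs_le.mp (lipd q1 K1 hK10 hK1 _ gv _ g2 f2)
  -- Riemann sums
  have r1 := abs_le.mp (riem hq1 hL10 hL1 hd1 (M := 0) (N := d) (by omega) (by omega))
  have r2 := abs_le.mp (riem hq2 hL20 hL2 hd1 (M := d) (N := M1) hdM1 (by omega))
  have r3 := abs_le.mp (riem hq2 hL20 hL2 hd1 (M := M1) (N := M2) hM12 hM2d)
  have r4 := abs_le.mp (riem hq1 hL10 hL1 hd1 (M := M1) (N := M2) hM12 hM2d)
  have r5 := abs_le.mp (riem hq2 hL20 hL2 hd1 (M := 0) (N := 2 * d) (by omega) le_rfl)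
  have c1 : (d : ℝ) / d = 1 := div_self hd0.ne'
  have c2 : ((2 * d : ℕ) : ℝ) / d = 2 := by
    push_cast
    field_simp
  rw [Nat.cast_zero, zero_div, c1] at r1
  rw [c1] at r2
  rw [Nat.cast_zero, zero_div, c2] at r5
  have hIcc : Icc 1 (2 * d) = Ioc 0 (2 * d) := by
    ext m
    rw [mem_Icc, mem_Ioc]
    omega
  rw [hIcc]
  -- the left hand side
  have hl : (d : ℝ) * ∑ m ∈ Ioc 0 (2 * d), a d m ≤
      ∑ m ∈ Ioc 0 (2 * d), Am ((m : ℝ) / d) + 2 * C := by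
    rw [mul_sum]
    have h1 : ∀ m ∈ Ioc 0 (2 * d), (d : ℝ) * a d m ≤ Am ((m : ℝ) / d) + C / d := by
      intro m hm
      rw [mem_Ioc] at hm
      have h2 := (abs_le.mp (ha m hm.2)).2
      have h3 : (d : ℝ) * a d m ≤ d * (Am ((m : ℝ) / d) / d + C / (d : ℝ) ^ 2) :=
        mul_le_mul_of_nonneg_left (by linarith) hd0.le
      refine h3.trans (le_of_eq ?_)
      field_simp
    refine (sum_le_sum h1).trans ?_
    rw [sum_add_distrib, sum_const, Nat.card_Ioc, nsmul_eq_mul]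
    have h4 : (((2 * d - 0 : ℕ)) : ℝ) * (C / d) = 2 * C := by
      rw [Nat.sub_zero]
      push_cast
      field_simp
    rw [h4]
  -- the right hand side
  have hr : ∑ m ∈ Ioc 0 (2 * d), ((if m ≤ d then (m : ℝ) / d * Am ((m : ℝ) / d)
      else if m ≤ M1 then Am ((m : ℝ) / d)
      else if m ≤ M2 then (1 - et) * Am ((m : ℝ) / d) - (m : ℝ) / d * Am ((m : ℝ) / d) / 2
      else 0) - (C / d + et * (1000 + C / d))) ≤
      ∑ m ∈ Ioc 0 (2 * d), (if (m:ℝ) ≤ (4 / 3 - et) * d then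
        a d m * min (m:ℝ) d - et * d * |a d m|
        else if (m:ℝ) ≤ (2 - et) * d then a d m * (d - (m:ℝ) / 2 - et * d) else 0) := by
    refine sum_le_sum fun m hm => ?_
    rw [mem_Ioc] at hm
    exact term_ge hC0 hd1 hm.2 (ha m hm.2) (e1 m) (e2 m) hdM1
  rw [sum_sub_distrib, sum_const, Nat.card_Ioc, nsmul_eq_mul] at hr
  have h5 : (((2 * d - 0 : ℕ)) : ℝ) * (C / d + et * (1000 + C / d)) =
      2 * C + 2 * et * (1000 * d + C) := by
    rw [Nat.sub_zero]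
    push_cast
    field_simp
  rw [h5] at hr
  have h6 : ∑ m ∈ Ioc 0 (2 * d), (if m ≤ d then (m : ℝ) / d * Am ((m : ℝ) / d)
      else if m ≤ M1 then Am ((m : ℝ) / d)
      else if m ≤ M2 then (1 - et) * Am ((m : ℝ) / d) - (m : ℝ) / d * Am ((m : ℝ) / d) / 2
      else 0) =
      ∑ m ∈ Ioc 0 d, (m : ℝ) / d * Am ((m : ℝ) / d) + ∑ m ∈ Ioc d M1, Am ((m : ℝ) / d) +
      ((1 - et) * ∑ m ∈ Ioc M1 M2, Am ((m : ℝ) / d) -
        (∑ m ∈ Ioc M1 M2, (m : ℝ) / d * Am ((m : ℝ) / d)) / 2) := by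
    rw [← sum_Ioc_consecutive _ (Nat.zero_le M2) hM2d, ← sum_Ioc_consecutive _ (Nat.zero_le M1) hM12,
      ← sum_Ioc_consecutive _ (Nat.zero_le d) hdM1]
    have s1 : ∑ m ∈ Ioc 0 d, (if m ≤ d then (m : ℝ) / d * Am ((m : ℝ) / d)
        else if m ≤ M1 then Am ((m : ℝ) / d)
        else if m ≤ M2 then (1 - et) * Am ((m : ℝ) / d) - (m : ℝ) / d * Am ((m : ℝ) / d) / 2
        else 0) = ∑ m ∈ Ioc 0 d, (m : ℝ) / d * Am ((m : ℝ) / d) := by
      refine sum_congr rfl fun m hm => ?_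
      rw [mem_Ioc] at hm
      rw [if_pos hm.2]
    have s2 : ∑ m ∈ Ioc d M1, (if m ≤ d then (m : ℝ) / d * Am ((m : ℝ) / d)
        else if m ≤ M1 then Am ((m : ℝ) / d)
        else if m ≤ M2 then (1 - et) * Am ((m : ℝ) / d) - (m : ℝ) / d * Am ((m : ℝ) / d) / 2
        else 0) = ∑ m ∈ Ioc d M1, Am ((m : ℝ) / d) := by
      refine sum_congr rfl fun m hm => ?_
      rw [mem_Ioc] at hm
      rw [if_neg (by omega), if_pos hm.2]
    have s3 : ∑ m ∈ Ioc M1 M2, (if m ≤ d then (m : ℝ) / d * Am ((m : ℝ) / d)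
        else if m ≤ M1 then Am ((m : ℝ) / d)
        else if m ≤ M2 then (1 - et) * Am ((m : ℝ) / d) - (m : ℝ) / d * Am ((m : ℝ) / d) / 2
        else 0) = (1 - et) * ∑ m ∈ Ioc M1 M2, Am ((m : ℝ) / d) -
        (∑ m ∈ Ioc M1 M2, (m : ℝ) / d * Am ((m : ℝ) / d)) / 2 := by
      rw [mul_sum, sum_div, ← sum_sub_distrib]
      refine sum_congr rfl fun m hm => ?_
      rw [mem_Ioc] at hm
      rw [if_neg (by omega), if_neg (by omega), if_pos hm.2]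
    have s4 : ∑ m ∈ Ioc M2 (2 * d), (if m ≤ d then (m : ℝ) / d * Am ((m : ℝ) / d)
        else if m ≤ M1 then Am ((m : ℝ) / d)
        else if m ≤ M2 then (1 - et) * Am ((m : ℝ) / d) - (m : ℝ) / d * Am ((m : ℝ) / d) / 2
        else 0) = 0 := by
      refine sum_eq_zero fun m hm => ?_
      rw [mem_Ioc] at hm
      rw [if_neg (by omega), if_neg (by omega), if_neg (by omega)]
    rw [s1, s2, s3, s4, add_zero]
  rw [h6] at hr
  -- the first term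
  have h7 : Am 0 * (d - 4) - C ≤ a d 0 * ((d : ℝ) - 2) ^ 2 := by
    have h8 : (Am 0 / d - C / (d : ℝ) ^ 2) * ((d : ℝ) - 2) ^ 2 ≤ a d 0 * ((d : ℝ) - 2) ^ 2 :=
      mul_le_mul_of_nonneg_right ha01 (by positivity)
    refine le_trans ?_ h8
    have h9 : (Am 0 / d - C / (d : ℝ) ^ 2) * ((d : ℝ) - 2) ^ 2 =
        Am 0 * (d - 4) + Am 0 * (4 / d) - C * ((d - 2) / d) ^ 2 := by
      field_simp
      ring
    rw [h9]
    have h10 : 0 ≤ Am 0 * (4 / d) := by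
      have := hA0.1
      positivity
    have h11 : C * (((d : ℝ) - 2) / d) ^ 2 ≤ C * 1 := by
      refine mul_le_mul_of_nonneg_left ?_ hC0
      have h12 : 0 ≤ ((d : ℝ) - 2) / d := div_nonneg (by linarith) hd0.le
      have h13 : ((d : ℝ) - 2) / d ≤ 1 := by
        rw [div_le_one hd0]
        linarith
      exact pow_le_one₀ h12 h13
    linarith
  have h14 : (d : ℝ) * a d 0 ≤ Am 0 + C := by
    have h15 : (d : ℝ) * a d 0 ≤ d * (Am 0 / d + C / (d : ℝ) ^ 2) :=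
      mul_le_mul_of_nonneg_left ha02 hd0.le
    have h16 : (d : ℝ) * (Am 0 / d + C / (d : ℝ) ^ 2) = Am 0 + C / d := by field_simp
    have h17 : C / d ≤ C := div_le_self hC0 (by linarith)
    linarith
  have hnum := mul_le_mul_of_nonneg_left numeric.le hd0.le
  set Sa := ∑ m ∈ Ioc 0 (2 * d), a d m with hSa
  set S5 := ∑ m ∈ Ioc 0 (2 * d), Am ((m : ℝ) / d) with hS5
  have hfin := arith (Sa := Sa + 7 / 2 * et) (S5 := S5 + 7 / 2 * et * d) (q22 := q2 2 + 7 / 2 * et)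
    hW hdW hd0 het het1 hC0 hL10 hL20 hK10 hK20 r1.1 r2.1 r3.1 r4.2 (by
      have h := r5.2
      have h' : S5 + 7 / 2 * et * d - d * (q2 2 + 7 / 2 * et - q2 0) = S5 - d * (q2 2 - q2 0) := by
        ring
      rw [h']
      exact h) k1.1 k1.2 k2.1 k3.1 k4.2 (by
      have h' : (d : ℝ) * (Sa + 7 / 2 * et) = d * Sa + 7 / 2 * et * d := by ring
      rw [h']
      linarith) hr h7 h14 (by
      refine le_trans (le_trans (le_of_eq ?_) (sub_le_sub_right hnum (d * (7 * et)))) (le_of_eq ?_)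
      · ring
      · ring)
  have hU : (d : ℝ) * (a d 0 + 2 * Sa) ≤ 7 * d := by
    have h1 := mul_le_mul_of_nonneg_left numeric2 hd0.le
    have h2 := r5.2
    have h3 : 5 * Am 0 + 11 * C + 12 * L2 ≤ W := by
      rw [hW]
      linarith
    have h4 : 2 ≤ Am 0 := hA0.1
    nlinarith
  have hU2 : et * ((d : ℝ) * (a d 0 + 2 * Sa)) ≤ et * (7 * d) := mul_le_mul_of_nonneg_left hU het.le
  have hfin2 : (d : ℝ) * (a d 0 + 2 * (Sa + 7 / 2 * et)) = d * (a d 0 + 2 * Sa) + et * (7 * d) := by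
    ring
  rw [hfin2] at hfin
  have hfin3 : (1 + et) * (d : ℝ) * (a d 0 + 2 * Sa) = d * (a d 0 + 2 * Sa) +
      et * ((d : ℝ) * (a d 0 + 2 * Sa)) := by ring
  rw [hfin3]
  linarith

end Pool.Agent.H523.ZG.K4
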