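import Pool.Agent.H523.ZG.Pairs
import Pool.Agent.H523.ZG.K4
import Pool.Agent.H523.ZG.B3

set_option autoImplicit false
set_option linter.unusedSectionVars false

/-! # Gaps below half of the mean spacing: one good prime modulus -/

namespace Pool.Agent.H523.ZG

open Polynomial Finset
open Pool.Agent.H523.FF (Ir mem_Ir PL mem_PL card_PL two_le_card IrLE mem_IrLE)
open Pool.Agent.H523.CM (GG MSq Nav pw zs BadQ poly_le_exp)

open scoped Classical

theorem bad_mono {F : Type} [Field F] [Fintype F] {ε δ₁ δ₂ : ℝ} (h : δ₂ ≤ δ₁) {Q : F[X]}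
    (hb : BadQ ε δ₂ Q) : BadQ ε δ₁ Q := by
  obtain ⟨m, h1, h2, h3⟩ := hb
  refine ⟨m, h1, h2, lt_of_le_of_lt ?_ h3⟩
  have hq := two_le_card (F := F)
  apply mul_le_mul_of_nonneg_left _ (by positivity)
  apply add_le_add_left
  apply Real.rpow_le_rpow_of_exponent_le (by linarith)
  have : δ₂ * (Q.natDegree : ℝ) ≤ δ₁ * Q.natDegree :=
    mul_le_mul_of_nonneg_right h (Nat.cast_nonneg _)
  linarith

/-- the mean squares up to `4/3` -/
theorem W_near (η δ : ℝ) (hη : 0 < η) (hδ : 0 < δ) (hδ1 : δ ≤ 1 / 4) : ∃ N : ℕ,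
    ∀ (F : Type) [Field F] [Fintype F] (Q : F[X]) [Fintype (MulChar (AdjoinRoot Q) ℂ)],
      Q.Monic → Irreducible Q → N ≤ Q.natDegree → ¬ BadQ η δ Q → ∀ m : ℕ, 1 ≤ m →
      (m:ℝ) ≤ (4 / 3 - η) * Q.natDegree →
      |MSq Q m - min (m:ℝ) Q.natDegree| ≤ η * Q.natDegree := by
  obtain ⟨N₁, hN₁⟩ := CM.ff_beyond δ hδ hδ1
  set C : ℝ := 96 * Real.exp 18 + 60 with hC
  have hC0 : 0 < C := by positivity
  refine ⟨N₁ + ⌈C / η⌉₊ + 2, ?_⟩
  intro F _ _ Q _ hQ hirr hN hgood m hm1 hm2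
  have hq := two_le_card (F := F)
  have hd2 : 2 ≤ Q.natDegree := by omega
  have hηd : C ≤ η * Q.natDegree := by
    have h1 : C / η ≤ Q.natDegree := by
      refine (Nat.le_ceil _).trans ?_
      exact_mod_cast (show ⌈C / η⌉₊ ≤ Q.natDegree by omega)
    rw [div_le_iff₀ hη] at h1
    linarith
  obtain ⟨t, hN, ht0, ht1, ht2⟩ := CM.Nav_eq hQ hirr hd2
  have hNav : |Nav Q - Q.natDegree| ≤ 2 := by
    have h1 : 1 / ((Fintype.card F : ℝ) - 1) ≤ 1 := by
      rw [div_le_one (by linarith)]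
      linarith
    rw [hN, abs_le]
    constructor <;> linarith
  have hmin : |min (m:ℝ) (Nav Q) - min (m:ℝ) Q.natDegree| ≤ 2 := by
    refine le_trans ?_ hNav
    have := abs_min_sub_min_le_max (m:ℝ) (Nav Q) (m:ℝ) (Q.natDegree : ℝ)
    rw [sub_self, abs_zero, max_eq_right (abs_nonneg _)] at this
    exact this
  have hex : (1:ℝ) ≤ Real.exp 18 := Real.one_le_exp (by norm_num)
  rcases lt_or_ge m Q.natDegree with h | h
  · have h1 := CM.ff_below hQ hirr hd2 hm1 h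
    obtain ⟨hx3, hx1, hx0⟩ := CM.sqrt_growth (F := F) m
    have h2 : (Fintype.card F : ℝ) ^ m / (Fintype.card F : ℝ) ^ Q.natDegree ≤ 1 := by
      rw [div_le_one (by positivity)]
      exact pow_le_pow_right₀ (by linarith) h.le
    have h3 : |MSq Q m - min (m:ℝ) Q.natDegree| ≤ |MSq Q m - min (m:ℝ) (Nav Q)| +
        |min (m:ℝ) (Nav Q) - min (m:ℝ) Q.natDegree| := by
      have := abs_add_le (MSq Q m - min (m:ℝ) (Nav Q))
        (min (m:ℝ) (Nav Q) - min (m:ℝ) Q.natDegree)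
      rwa [sub_add_sub_cancel] at this
    linarith
  · have h1 := hN₁ F Q η hη hQ hirr (by omega) hgood m h hm2
    have hrho := CM.rho_ge (F := F)
    have h2 : (96 * Real.exp 18 + 50) / CM.rho F ^ (m - Q.natDegree) ≤ 96 * Real.exp 18 + 50 := by
      apply div_le_self (by positivity)
      exact one_le_pow₀ (by linarith)
    have h3 : (Fintype.card F : ℝ) ^ (-(δ / 2 * Q.natDegree)) ≤ 1 := by
      apply Real.rpow_le_one_of_one_le_of_nonpos (by linarith)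
      have : 0 ≤ δ / 2 * (Q.natDegree : ℝ) := by positivity
      linarith
    have h4 : min (m:ℝ) (Q.natDegree : ℝ) = Q.natDegree :=
      min_eq_right (by exact_mod_cast h)
    have h5 : |MSq Q m - min (m:ℝ) Q.natDegree| ≤ |MSq Q m - Nav Q| + |Nav Q - Q.natDegree| := by
      rw [h4]
      have := abs_add_le (MSq Q m - Nav Q) (Nav Q - Q.natDegree)
      rwa [sub_add_sub_cancel] at this
    linarith

/-- the mean squares beyond `4/3` -/
theorem W_far (hW : S_W) (η : ℝ) (hη : 0 < η) (hη1 : η ≤ 1 / 100) : ∃ N : ℕ,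
    ∀ (F : Type) [Field F] [Fintype F] (Q : F[X]) [Fintype (MulChar (AdjoinRoot Q) ℂ)],
      Q.Monic → Irreducible Q → N ≤ Q.natDegree → ¬ BadG η (η / 4) Q → ∀ m : ℕ,
      Q.natDegree < m → (m:ℝ) ≤ (2 - η) * Q.natDegree →
      (Q.natDegree : ℝ) - (m:ℝ) / 2 - η * Q.natDegree ≤ MSq Q m := by
  obtain ⟨N₁, hN₁⟩ := hW (η / 4) (by linarith) η hη
  refine ⟨N₁ + 1, ?_⟩
  intro F _ _ Q _ hQ hirr hN hgood m hm1 hm2
  have hq := two_le_card (F := F)
  have hd1 : (1:ℝ) ≤ Q.natDegree := by exact_mod_cast (show 1 ≤ Q.natDegree by omega)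
  have h1 := hN₁ F Q hQ hirr (by omega) m hm1 hm2
  have h2 : (Fintype.card F : ℝ) ^ m * (Q.natDegree - (m:ℝ) / 2 - η / 4 * Q.natDegree) ≤
      GG m Q := by
    by_contra hcon
    exact hgood ⟨m, hm1, hm2, not_le.mp hcon⟩
  have hqm : 0 < (Fintype.card F : ℝ) ^ m := by positivity
  have h3 : (Q.natDegree : ℝ) - (m:ℝ) / 2 - η / 4 * Q.natDegree ≤
      GG m Q / (Fintype.card F : ℝ) ^ m := by
    rw [le_div_iff₀ hqm]
    linarith
  have h4 : (1 - η / 4) * ((Q.natDegree : ℝ) - (m:ℝ) / 2 - η / 4 * Q.natDegree) ≤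
      (1 - η / 4) * (GG m Q / (Fintype.card F : ℝ) ^ m) :=
    mul_le_mul_of_nonneg_left h3 (by linarith)
  have h5 : (0:ℝ) ≤ m := Nat.cast_nonneg _
  have h6 : 0 ≤ η / 4 * (m / 2) := by positivity
  have h7 : 0 ≤ η / 4 * (η / 4 * Q.natDegree) := by positivity
  have h8 : η / 4 ≤ η / 4 * Q.natDegree := by nlinarith
  nlinarith

/-- **one good modulus** -/
theorem one_good {η : ℝ} (hη : 0 < η) {F : Type} [Field F] [Fintype F] {Q : F[X]} (hQ : Q.Monic)
    (hirr : Irreducible Q) (hd : 2 ≤ Q.natDegree) [Fintype (MulChar (AdjoinRoot Q) ℂ)]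
    (a : ℕ → ℝ) (H : ℝ → ℝ) (δ : ℝ) (hδ : 0 < δ)
    (hH : ∀ θ, H θ = a 0 + 2 * ∑ m ∈ Icc 1 (2 * Q.natDegree), a m * Real.cos (m * θ))
    (ha0 : 0 ≤ a 0) (ha : ∀ m : ℕ, Q.natDegree ≤ m → 0 ≤ a m)
    (hneg : ∀ θ : ℝ, Real.cos θ ≤ Real.cos δ → H θ ≤ 0) (hmax : ∀ θ : ℝ, H θ ≤ H 0)
    (hH0 : 0 ≤ H 0)
    (hmain : (1 + η) * (Q.natDegree : ℝ) * H 0 <
      a 0 * ((Q.natDegree : ℝ) - 2) ^ 2 + 2 * ∑ m ∈ Icc 1 (2 * Q.natDegree),
        (if (m:ℝ) ≤ (4 / 3 - η) * Q.natDegree then a m * min (m:ℝ) Q.natDegree -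
          η * Q.natDegree * |a m|
          else if (m:ℝ) ≤ (2 - η) * Q.natDegree then
            a m * (Q.natDegree - (m:ℝ) / 2 - η * Q.natDegree) else 0))
    (hη1 : η ≤ 1 / 100)
    (hnear : ∀ m : ℕ, 1 ≤ m → (m:ℝ) ≤ (4 / 3 - η) * Q.natDegree →
      |MSq Q m - min (m:ℝ) Q.natDegree| ≤ η * Q.natDegree)
    (hfar : ∀ m : ℕ, Q.natDegree < m → (m:ℝ) ≤ (2 - η) * Q.natDegree →
      (Q.natDegree : ℝ) - (m:ℝ) / 2 - η * Q.natDegree ≤ MSq Q m) :
    (1 + η) * ∑ χ ∈ (univ : Finset (MulChar (AdjoinRoot Q) ℂ)).erase 1, ((zs χ).card : ℝ) ≤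
      ∑ χ ∈ (univ : Finset (MulChar (AdjoinRoot Q) ℂ)).erase 1, (close δ (zs χ) : ℝ) := by
  have hq := two_le_card (F := F)
  set d := Q.natDegree with hdd
  have hdr : (2:ℝ) ≤ d := by exact_mod_cast hd
  set S := (univ : Finset (MulChar (AdjoinRoot Q) ℂ)).erase 1 with hS
  have hcard := CM.card_nonpr hQ hirr
  rw [← hS] at hcard
  have h4 := CM.q_pow_ge (F := F) (Q := Q) hd
  rw [← hdd] at hcard h4
  set cnt : ℝ := (Fintype.card F : ℝ) ^ d - 2 with hcnt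
  have hcnt0 : 0 < cnt := by linarith
  have hsq : 0 < √(Fintype.card F : ℝ) := Real.sqrt_pos.mpr (by linarith)
  have hc0 : ((√(Fintype.card F : ℝ) : ℝ) : ℂ) ≠ 0 := by
    exact_mod_cast hsq.ne'
  -- the number of zeros
  have hzcard : ∀ χ ∈ S, (d:ℝ) - 2 ≤ ((zs χ).card : ℝ) ∧ ((zs χ).card : ℝ) ≤ d := by
    intro χ hχ
    have hχ1 : χ ≠ 1 := (mem_erase.mp hχ).1
    have h : (zs χ).card = d - 1 ∨ (zs χ).card = d - 2 := by
      by_cases he : CM.EvenC χ
      · exact Or.inr (CM.zs_even hQ hirr hd hχ1 he).2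
      · exact Or.inl (CM.zs_odd hQ hirr hd hχ1 he).2
    rcases h with h | h
    · rw [h, Nat.cast_sub (by omega)]
      push_cast
      constructor <;> linarith
    · rw [h, Nat.cast_sub (by omega)]
      push_cast
      constructor <;> linarith
  -- one character
  have hone : ∀ χ ∈ S, a 0 * ((d:ℝ) - 2) ^ 2 + 2 * ∑ m ∈ Icc 1 (2 * d), a m * ‖pw χ m‖ ^ 2 ≤
      H 0 * (close δ (zs χ) : ℝ) := by
    intro χ hχ
    have h1 := close_le ((zs χ).map (fun r => (((√(Fintype.card F : ℝ) : ℝ) : ℂ) * r)⁻¹)) a (2 * d) δ hδ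
      (by
        intro z hz
        rw [Multiset.mem_map] at hz
        obtain ⟨r, hr, rfl⟩ := hz
        have hr1 : ‖r‖ = (√(Fintype.card F : ℝ))⁻¹ := by
          unfold zs at hr
          exact (Multiset.mem_filter.mp hr).2
        rw [norm_inv, norm_mul, hr1, Complex.norm_real, Real.norm_eq_abs, abs_of_pos hsq,
          mul_inv_cancel₀ hsq.ne', inv_one]) H hH hneg hmax
    rw [close_inv δ _ _ hc0, Multiset.card_map] at h1
    have h2 : ∀ m : ℕ, (((zs χ).map (fun r => (((√(Fintype.card F : ℝ) : ℝ) : ℂ) * r)⁻¹)).map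
        (fun z => z ^ m)).sum = pw χ m := by
      intro m
      rw [Multiset.map_map]
      rfl
    simp only [h2] at h1
    refine le_trans ?_ h1
    have h3 := (hzcard χ hχ).1
    have h5 : ((d:ℝ) - 2) ^ 2 ≤ ((zs χ).card : ℝ) ^ 2 := pow_le_pow_left₀ (by linarith) h3 2
    have h6 := mul_le_mul_of_nonneg_left h5 ha0
    linarith
  have hsum := sum_le_sum hone
  rw [sum_add_distrib, sum_const, nsmul_eq_mul, hcard, ← mul_sum, ← mul_sum, sum_comm] at hsum
  have hM : ∀ m : ℕ, ∑ χ ∈ S, a m * ‖pw χ m‖ ^ 2 = a m * (cnt * MSq Q m) := by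
    intro m
    rw [← mul_sum]
    congr 1
    unfold MSq
    rw [← hS, ← hdd, ← hcnt]
    field_simp
  rw [sum_congr rfl (fun m _ => hM m)] at hsum
  -- termwise
  have hterm : ∀ m ∈ Icc 1 (2 * d), cnt * (if (m:ℝ) ≤ (4 / 3 - η) * d then a m * min (m:ℝ) d -
          η * d * |a m|
          else if (m:ℝ) ≤ (2 - η) * d then a m * (d - (m:ℝ) / 2 - η * d) else 0) ≤
      a m * (cnt * MSq Q m) := by
    intro m hm
    rw [mem_Icc] at hm
    have e : a m * (cnt * MSq Q m) = cnt * (a m * MSq Q m) := by ring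
    rw [e]
    apply mul_le_mul_of_nonneg_left _ hcnt0.le
    have hMS0 : 0 ≤ MSq Q m := by
      unfold MSq
      apply div_nonneg (sum_nonneg (fun _ _ => sq_nonneg _))
      rw [← hdd, ← hcnt]
      exact hcnt0.le
    split_ifs with c1 c2
    · have h1 := hnear m hm.1 c1
      have h2 : |a m * (MSq Q m - min (m:ℝ) d)| ≤ |a m| * (η * d) := by
        rw [abs_mul]
        exact mul_le_mul_of_nonneg_left h1 (abs_nonneg _)
      have h3 := (abs_le.mp h2).1
      linarith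
    · have hdm : d < m := by
        have h1 : (d:ℝ) < m := by
          rw [not_le] at c1
          have : (d:ℝ) ≤ (4 / 3 - η) * d := by nlinarith
          linarith
        exact_mod_cast h1
      exact mul_le_mul_of_nonneg_left (hfar m hdm c2) (ha m hdm.le)
    · have hdm : d < m := by
        have h1 : (d:ℝ) < m := by
          rw [not_le] at c1
          have : (d:ℝ) ≤ (4 / 3 - η) * d := by nlinarith
          linarith
        exact_mod_cast h1
      exact mul_nonneg (ha m hdm.le) hMS0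
  have hsum2 := sum_le_sum hterm
  rw [← mul_sum] at hsum2
  have hfinal : cnt * ((1 + η) * (d:ℝ) * H 0) < H 0 * ∑ χ ∈ S, (close δ (zs χ) : ℝ) := by
    have h1 := mul_lt_mul_of_pos_left hmain hcnt0
    have h2 : cnt * (a 0 * ((d:ℝ) - 2) ^ 2 + 2 * ∑ m ∈ Icc 1 (2 * d),
        (if (m:ℝ) ≤ (4 / 3 - η) * d then a m * min (m:ℝ) d - η * d * |a m|
          else if (m:ℝ) ≤ (2 - η) * d then a m * (d - (m:ℝ) / 2 - η * d) else 0)) =
        cnt * (a 0 * ((d:ℝ) - 2) ^ 2) + 2 * (cnt * ∑ m ∈ Icc 1 (2 * d),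
        (if (m:ℝ) ≤ (4 / 3 - η) * d then a m * min (m:ℝ) d - η * d * |a m|
          else if (m:ℝ) ≤ (2 - η) * d then a m * (d - (m:ℝ) / 2 - η * d) else 0)) := by ring
    rw [h2] at h1
    linarith
  have hH0pos : 0 < H 0 := by
    rcases hH0.lt_or_eq with h | h
    · exact h
    · rw [← h] at hfinal
      simp at hfinal
  have h7 : cnt * ((1 + η) * (d:ℝ)) ≤ ∑ χ ∈ S, (close δ (zs χ) : ℝ) := by
    by_contra hcon
    rw [not_le] at hcon
    have h8 := mul_lt_mul_of_pos_left hcon hH0pos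
    linarith
  have h9 : ∑ χ ∈ S, ((zs χ).card : ℝ) ≤ cnt * d := by
    refine (sum_le_sum (fun χ hχ => (hzcard χ hχ).2)).trans (le_of_eq ?_)
    rw [sum_const, nsmul_eq_mul, hcard]
  calc (1 + η) * ∑ χ ∈ S, ((zs χ).card : ℝ) ≤ (1 + η) * (cnt * d) :=
        mul_le_mul_of_nonneg_left h9 (by linarith)
    _ = cnt * ((1 + η) * (d:ℝ)) := by ring
    _ ≤ _ := h7

end Pool.Agent.H523.ZG
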