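import Pool.Agent.H271.ZG.P

set_option autoImplicit false

/-! # Close pairs of points of a circle and power sums -/

namespace Pool.Agent.H523.ZG

open Finset

open scoped Classical

/-- the number of the ordered pairs of points at angular distance less than `δ`, every point being
paired with itself too -/
noncomputable def close (δ : ℝ) (Z : Multiset ℂ) : ℕ :=
  (Z.map (fun u => Z.countP (fun v => |Complex.arg (u / v)| < δ))).sum

theorem close_le (Z : Multiset ℂ) (a : ℕ → ℝ) (M : ℕ) (δ : ℝ) (hδ : 0 < δ)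
    (hZ : ∀ z ∈ Z, ‖z‖ = 1) (H : ℝ → ℝ)
    (hH : ∀ θ, H θ = a 0 + 2 * ∑ m ∈ Icc 1 M, a m * Real.cos (m * θ))
    (hneg : ∀ θ : ℝ, Real.cos θ ≤ Real.cos δ → H θ ≤ 0) (hmax : ∀ θ : ℝ, H θ ≤ H 0) :
    a 0 * (Z.card : ℝ) ^ 2 + 2 * ∑ m ∈ Icc 1 M, a m * ‖(Z.map (fun z => z ^ m)).sum‖ ^ 2 ≤
      H 0 * (close δ Z : ℝ) := by
  obtain ⟨l, rfl⟩ : ∃ l : List ℂ, (l : Multiset ℂ) = Z := Quot.exists_rep Z
  set n := l.length with hn
  have hval : (l : Multiset ℂ) = (Finset.univ : Finset (Fin l.length)).val.map l.get := by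
    rw [Fin.univ_val_map, List.ofFn_get]
  set z : Fin n → ℂ := l.get with hzdef
  have hz : ∀ j, ‖z j‖ = 1 := fun j => hZ _ (by
    rw [Multiset.mem_coe]
    exact List.get_mem l j)
  have hcard : Multiset.card (l : Multiset ℂ) = n := Multiset.coe_card l
  have hsum : ∀ m : ℕ, ((l : Multiset ℂ).map (fun z => z ^ m)).sum = ∑ j, z j ^ m := by
    intro m
    rw [hval, Multiset.map_map]
    rfl
  have hL : a 0 * (n : ℝ) ^ 2 + 2 * ∑ m ∈ Icc 1 M, a m * ‖∑ j, z j ^ m‖ ^ 2 =
      ∑ j, ∑ k, H (Complex.arg (z j / z k)) := by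
    simp only [hH, Finset.sum_add_distrib, ← Finset.mul_sum]
    congr 1
    · simp
      ring
    · congr 1
      have h1 : ∀ m ∈ Icc 1 M, a m * ‖∑ j, z j ^ m‖ ^ 2 =
          ∑ j, ∑ k, a m * Real.cos (m * Complex.arg (z j / z k)) := by
        intro m _
        rw [Pool.Agent.H271.ZG.sq_pow_sum z hz m, Finset.mul_sum]
        exact Finset.sum_congr rfl fun j _ => Finset.mul_sum _ _ _
      rw [Finset.sum_congr rfl h1, Finset.sum_comm]
      exact Finset.sum_congr rfl fun j _ => Finset.sum_comm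
  have hclose : (close δ (l : Multiset ℂ) : ℝ) =
      ∑ j, ∑ k, (if |Complex.arg (z j / z k)| < δ then (1:ℝ) else 0) := by
    have h1 : ∀ u : ℂ, (l : Multiset ℂ).countP (fun v => |Complex.arg (u / v)| < δ) =
        ∑ k, (if |Complex.arg (u / z k)| < δ then 1 else 0) := by
      intro u
      rw [hval, Multiset.countP_map, ← Finset.filter_val, Finset.card_val, Finset.card_filter]
    have h2 : close δ (l : Multiset ℂ) =
        ∑ j, ∑ k, (if |Complex.arg (z j / z k)| < δ then 1 else 0) := by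
      unfold close
      simp only [h1]
      conv_lhs => rw [hval]
      rw [Multiset.map_map]
      rfl
    rw [h2]
    push_cast
    rfl
  rw [hcard]
  simp only [hsum]
  rw [hL, hclose, Finset.mul_sum]
  refine Finset.sum_le_sum (fun j _ => ?_)
  rw [Finset.mul_sum]
  refine Finset.sum_le_sum (fun k _ => ?_)
  split_ifs with h
  · rw [mul_one]
    exact hmax _
  · rw [mul_zero]
    refine hneg _ ?_
    rw [← Real.cos_abs (Complex.arg (z j / z k))]
    exact Real.cos_le_cos_of_nonneg_of_le_pi hδ.le (Complex.abs_arg_le_pi _) (not_lt.mp h)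

/-- the inversion does not change the close pairs -/
theorem close_inv (δ : ℝ) (Z : Multiset ℂ) (c : ℂ) (hc : c ≠ 0) :
    close δ (Z.map (fun r => (c * r)⁻¹)) = close δ Z := by
  unfold close
  rw [Multiset.map_map]
  congr 1
  refine Multiset.map_congr rfl (fun u _ => ?_)
  simp only [Function.comp]
  rw [Multiset.countP_map, Multiset.countP_eq_card_filter]
  congr 1
  refine Multiset.filter_congr (fun v _ => ?_)
  have h1 : (c * u)⁻¹ / (c * v)⁻¹ = (u / v)⁻¹ := by
    rw [mul_inv, mul_inv, inv_div, mul_div_mul_left _ _ (inv_ne_zero hc)]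
    rw [div_inv_eq_mul, mul_comm, ← div_eq_mul_inv]
  rw [h1, Complex.abs_arg_inv]

end Pool.Agent.H523.ZG
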