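import Pool.Agent.H523.ZG.Fin
import Pool.Agent.H205.ZG.D1
import Pool.Agent.H887.ZG.D2
import Pool.Agent.H695.ZG.D3
import Pool.Agent.H335.ZG.E1
import Pool.Agent.H339.ZG.E2
import Pool.Agent.H840.ZG.Y
import Pool.Agent.H118.ZG.RV
import Pool.Agent.H190.ZG.G
import Pool.Agent.H315.ZG.L
import Pool.Agent.H401.ZG.A
import Pool.Agent.H84.ZG.W

set_option autoImplicit false
set_option linter.unusedSectionVars false

/-! # Gaps below half of the mean spacing for almost all prime moduli -/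

namespace Pool.Agent.H523.ZG

open Polynomial Finset
open Pool.Agent.H341R2.Sharp (Mon mem_Mon)
open Pool.Agent.H523.FF (Ir mem_Ir PL mem_PL card_PL two_le_card IrLE mem_IrLE)
open Pool.Agent.H523.CM (GG MSq Nav pw zs BadQ poly_le_exp tot)

open scoped Classical

theorem all_D : S_D := by
  intro F _ _ n d M hM hMd hdn
  have := RH.finite_adjoinRoot hM
  let _ : Fintype (MulChar (AdjoinRoot M) ℂ) := Fintype.ofFinite _
  have hq := two_le_card (F := F)
  have h1 := Pool.Agent.H695.ZG.main F n d M hM hMd hdn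
  have h2 := Pool.Agent.H887.ZG.main F (n - d) M hM
  have hsq : ((√(Fintype.card F : ℝ)) ^ n) ^ 2 = (Fintype.card F : ℝ) ^ n := by
    rw [← pow_mul, mul_comm n 2, pow_mul, Real.sq_sqrt (by linarith)]
  have h3 : ∀ χ ∈ (univ : Finset (MulChar (AdjoinRoot M) ℂ)).erase 1,
      ‖psi n M χ‖ ^ 2 * ‖hsum (n - d) M χ‖ ^ 2 ≤
        (9 * (n:ℝ) ^ 2 * (Fintype.card F : ℝ) ^ n) * ‖hsum (n - d) M χ‖ ^ 2 := by
    intro χ hχ
    have h4 := Pool.Agent.H205.ZG.main F n M χ hM (by omega) (mem_erase.mp hχ).1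
    apply mul_le_mul_of_nonneg_right _ (sq_nonneg _)
    refine (pow_le_pow_left₀ (norm_nonneg _) h4 2).trans (le_of_eq ?_)
    rw [mul_pow, mul_pow, hsq]
    norm_num
  have htot : (0:ℝ) < tot M := by
    rw [CM.tot_eq_card hM]
    exact_mod_cast Nat.card_pos
  have h5 := sum_le_sum h3
  rw [← mul_sum] at h5
  have h6 : (9 * (n:ℝ) ^ 2 * (Fintype.card F : ℝ) ^ n) *
      ∑ χ ∈ (univ : Finset (MulChar (AdjoinRoot M) ℂ)).erase 1, ‖hsum (n - d) M χ‖ ^ 2 ≤
      (9 * (n:ℝ) ^ 2 * (Fintype.card F : ℝ) ^ n) *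
        ((tot M : ℝ) * (Fintype.card F : ℝ) ^ (n - d)) :=
    mul_le_mul_of_nonneg_left h2 (by positivity)
  refine h1.trans ((mul_le_mul_of_nonneg_left (h5.trans h6) (by positivity)).trans (le_of_eq ?_))
  field_simp

theorem all_E : S_E := Pool.Agent.H339.ZG.main all_D Pool.Agent.H335.ZG.E1.main

theorem all_G (ε η : ℝ) (hε : 0 < ε) (hη : 0 < η) : ∃ δ : ℝ, 0 < δ ∧ ∃ N : ℕ,
    ∀ (F : Type) [Field F] [Fintype F] (d : ℕ), N ≤ d →
      (((Ir F d).filter (fun Q => BadG ε η Q)).card : ℝ) ≤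
        (Fintype.card F : ℝ) ^ d * (Fintype.card F : ℝ) ^ (-(δ * d)) :=
  good_G Pool.Agent.H401.ZG.main Pool.Agent.H840.ZG.Y.main Pool.Agent.H118.ZG.mainR
    (Pool.Agent.H190.ZG.main Pool.Agent.H118.ZG.mainV) Pool.Agent.H315.ZG.main all_E ε η hε hη

/-- points without close pairs -/
theorem close_le_card (Z : Multiset ℂ) (δ : ℝ)
    (h : ∀ u v : ℂ, ({u, v} : Multiset ℂ) ≤ Z → δ ≤ |Complex.arg (u / v)|) :
    close δ Z ≤ Z.card := by
  obtain ⟨l, rfl⟩ : ∃ l : List ℂ, (l : Multiset ℂ) = Z := Quot.exists_rep Z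
  have hval : (l : Multiset ℂ) = (Finset.univ : Finset (Fin l.length)).val.map l.get := by
    rw [Fin.univ_val_map, List.ofFn_get]
  set z : Fin l.length → ℂ := l.get with hzdef
  have h1 : ∀ u : ℂ, (l : Multiset ℂ).countP (fun v => |Complex.arg (u / v)| < δ) =
      ∑ k, (if |Complex.arg (u / z k)| < δ then 1 else 0) := by
    intro u
    rw [hval, Multiset.countP_map, ← Finset.filter_val, Finset.card_val, Finset.card_filter]
  have h2 : close δ (l : Multiset ℂ) =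
      ∑ j, ∑ k, (if |Complex.arg (z j / z k)| < δ then 1 else 0) := by
    unfold close
    simp only [h1]
    conv_lhs => rw [hval]
    rw [Multiset.map_map]
    rfl
  have hoff : ∀ j k, j ≠ k → ¬ |Complex.arg (z j / z k)| < δ := by
    intro j k hjk
    have h3 : ({z j, z k} : Multiset ℂ) ≤ (l : Multiset ℂ) := by
      rw [hval]
      have h2 : ({j, k} : Finset (Fin l.length)).val ≤ (Finset.univ : Finset (Fin l.length)).val :=
        Finset.val_le_iff.2 (Finset.subset_univ _)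
      have h3 := Multiset.map_le_map (f := l.get) h2
      have h4 : ({j, k} : Finset (Fin l.length)).val = ({j, k} : Multiset (Fin l.length)) := by
        rw [Finset.insert_val_of_notMem (by simpa using hjk)]
        rfl
      rw [h4] at h3
      rw [Multiset.insert_eq_cons, Multiset.map_cons, Multiset.map_singleton] at h3
      exact h3
    exact not_lt.mpr (h _ _ h3)
  rw [h2, Multiset.coe_card]
  calc ∑ j, ∑ k, (if |Complex.arg (z j / z k)| < δ then 1 else 0)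
      ≤ ∑ j : Fin l.length, ∑ k : Fin l.length, (if j = k then 1 else 0) := by
        refine sum_le_sum (fun j _ => sum_le_sum (fun k _ => ?_))
        by_cases hjk : j = k
        · rw [if_pos hjk]
          split_ifs <;> omega
        · rw [if_neg hjk, if_neg (hoff j k hjk)]
    _ = l.length := by
        simp

/-- **Gaps below half of the mean spacing** -/
theorem gaps : ∃ c : ℝ, 0 < c ∧ ∃ δ : ℝ, 0 < δ ∧ ∃ N : ℕ,
    ∀ (F : Type) [Field F] [Fintype F] (d : ℕ), N ≤ d → ∃ E : Finset F[X],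
      (E.card : ℝ) ≤ (Fintype.card F : ℝ) ^ ((d:ℝ) - δ * d) ∧
      ∀ Q : F[X], Q.Monic → Irreducible Q → Q.natDegree = d → Q ∉ E →
        ∀ [Fintype (MulChar (AdjoinRoot Q) ℂ)],
        (1 + c) * ∑ χ ∈ (univ : Finset (MulChar (AdjoinRoot Q) ℂ)).erase 1, ((zs χ).card : ℝ) ≤
          ∑ χ ∈ (univ : Finset (MulChar (AdjoinRoot Q) ℂ)).erase 1,
            (close (cc / d) (zs χ) : ℝ) := by
  obtain ⟨η, hη, hη1, D₀, hD₀⟩ := kernel K4.main
  obtain ⟨δ₁, hδ₁, N₁, hN₁⟩ := CM.good_irr η hη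
  obtain ⟨δ₂, hδ₂, N₂, hN₂⟩ := all_G η (η / 4) hη (by linarith)
  set δ₃ : ℝ := min δ₁ (1 / 4) with hδ₃
  have hδ₃0 : 0 < δ₃ := lt_min hδ₁ (by norm_num)
  obtain ⟨N₃, hN₃⟩ := W_near η δ₃ hη hδ₃0 (min_le_right _ _)
  obtain ⟨N₄, hN₄⟩ := W_far Pool.Agent.H84.ZG.main η hη hη1
  set δ : ℝ := min δ₁ δ₂ / 2 with hδ
  have hmin : 0 < min δ₁ δ₂ := lt_min hδ₁ hδ₂
  have hδ0 : 0 < δ := by rw [hδ]; linarith
  obtain ⟨N₅, hN₅⟩ := poly_le_exp 2 0 δ hδ0
  refine ⟨η, hη, δ, hδ0, D₀ + N₁ + N₂ + N₃ + N₄ + N₅ + 2, ?_⟩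
  intro F _ _ d hd
  have hq := two_le_card (F := F)
  set q : ℝ := (Fintype.card F : ℝ) with hqd
  have hq0 : 0 < q := by linarith
  refine ⟨(Ir F d).filter (fun Q => BadQ η δ₁ Q) ∪ (Ir F d).filter (fun Q => BadG η (η / 4) Q),
    ?_, ?_⟩
  · have h1 := hN₁ F d (by omega)
    have h2 := hN₂ F d (by omega)
    rw [← hqd] at h1 h2
    have h3 : ((((Ir F d).filter (fun Q => BadQ η δ₁ Q) ∪
        (Ir F d).filter (fun Q => BadG η (η / 4) Q)).card : ℕ) : ℝ) ≤
        (((Ir F d).filter (fun Q => BadQ η δ₁ Q)).card : ℝ) +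
        (((Ir F d).filter (fun Q => BadG η (η / 4) Q)).card : ℝ) := by
      exact_mod_cast card_union_le _ _
    have hdn : (0:ℝ) ≤ d := Nat.cast_nonneg _
    have hm : ∀ x : ℝ, 2 * δ ≤ x → q ^ (-(x * d)) ≤ q ^ (-(2 * δ * d)) := by
      intro x hx
      apply Real.rpow_le_rpow_of_exponent_le (by linarith)
      have := mul_le_mul_of_nonneg_right hx hdn
      linarith
    have h4 := hm δ₁ (by rw [hδ]; linarith [min_le_left δ₁ δ₂])
    have h5 := hm δ₂ (by rw [hδ]; linarith [min_le_right δ₁ δ₂])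
    have h6 : 2 * q ^ (-(2 * δ * d)) ≤ q ^ (-(δ * d)) := by
      have h7 := hN₅ d (by omega)
      rw [pow_zero, mul_one] at h7
      have h8 : ((2:ℝ) ^ δ) ^ d ≤ q ^ (δ * d) := by
        rw [Real.rpow_mul hq0.le, Real.rpow_natCast]
        exact pow_le_pow_left₀ (by positivity) (Real.rpow_le_rpow (by norm_num) hq hδ0.le) d
      have h9 : q ^ (-(δ * d)) = q ^ (δ * d) * q ^ (-(2 * δ * d)) := by
        rw [← Real.rpow_add hq0]
        congr 1
        ring
      rw [h9]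
      exact mul_le_mul_of_nonneg_right (h7.trans h8) (Real.rpow_nonneg hq0.le _)
    have hqd0 : 0 < q ^ d := by positivity
    rw [sub_eq_add_neg, Real.rpow_add hq0, Real.rpow_natCast]
    have h10 := mul_le_mul_of_nonneg_left h4 hqd0.le
    have h11 := mul_le_mul_of_nonneg_left h5 hqd0.le
    have h12 := mul_le_mul_of_nonneg_left h6 hqd0.le
    linarith
  · intro Q hQ hirr hQd hQE _
    rw [mem_union, not_or, mem_filter, mem_filter] at hQE
    have hQI : Q ∈ Ir F d := mem_Ir.mpr ⟨hQ, hirr, hQd⟩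
    have hb1 : ¬ BadQ η δ₃ Q := fun hb => hQE.1 ⟨hQI, bad_mono (min_le_left _ _) hb⟩
    have hb2 : ¬ BadG η (η / 4) Q := fun hb => hQE.2 ⟨hQI, hb⟩
    obtain ⟨k0, k1, k2, k3, k4, k5⟩ := hD₀ d (by omega)
    have hcc : 0 < cc := by
      unfold cc
      have := Real.pi_pos
      positivity
    have hd0 : (0:ℝ) < d := by exact_mod_cast (show 0 < d by omega)
    subst hQd
    exact one_good hη hQ hirr (by omega) (aa Q.natDegree) (Hk Q.natDegree) (cc / Q.natDegree)
      (by positivity) (fun θ => rfl) k0 k1 k2 k3 k4 k5 hη1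
      (hN₃ F Q hQ hirr (by omega) hb1) (hN₄ F Q hQ hirr (by omega) hb2)

end Pool.Agent.H523.ZG
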