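import Pool.Agent.H523.ZG.Stm

set_option autoImplicit false
set_option linter.unusedSectionVars false

/-! # The lower bound of the variance for almost all primes -/

namespace Pool.Agent.H523.ZG

open Polynomial Finset
open Pool.Agent.H341R2.Sharp (Mon mem_Mon)
open Pool.Agent.H523.FF (Ir mem_Ir PL mem_PL card_PL two_le_card IrLE mem_IrLE)
open Pool.Agent.H523.CM (gP aP cB SF LS th vth tot GG MSq Nav pw zs mem_SF poly_le_exp)

open scoped Classical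

theorem X_lower (hA : S_A) (hY : S_Y) (hR : S_R) : ∃ C : ℝ, 0 ≤ C ∧
    ∀ (F : Type) [Field F] [Fintype F] (K J r : ℕ), K + J ≤ r → 1 ≤ r →
      ((r:ℝ) - (K + J : ℕ)) - C - (Real.exp 3 * r) ^ 4 / (Fintype.card F : ℝ) ^ J ≤
        ∑ s ∈ SF F r \ SF F (K + J), ∑ h ∈ PL F K, ∏ P ∈ s, cB P h := by
  obtain ⟨C, hC⟩ := hA
  refine ⟨|C|, abs_nonneg C, ?_⟩
  intro F _ _ K J r hTr hr
  have hq := two_le_card (F := F)
  have hq0 : (0:ℝ) < (Fintype.card F : ℝ) := by linarith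
  have h1 := hC F (K + J) r hTr
  have h2 := hR F (K + J) r hr
  have h3 : ∀ s ∈ SF F r \ SF F (K + J),
      ∏ P ∈ s, gP P - (Fintype.card F : ℝ) ^ K * (2 ^ s.card * ∏ P ∈ s, gP P ^ 2) ≤
        ∑ h ∈ PL F K, ∏ P ∈ s, cB P h := by
    intro s hs
    rw [mem_sdiff, mem_SF, mem_SF] at hs
    refine hY F s K hs.1.1 ?_
    by_contra hcon
    rw [not_lt] at hcon
    exact hs.2 ⟨hs.1.1, by omega⟩
  have h4 := sum_le_sum h3
  rw [sum_sub_distrib, ← mul_sum] at h4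
  have h5 : (Fintype.card F : ℝ) ^ K * ∑ s ∈ SF F r \ SF F (K + J),
      ((2:ℝ) ^ s.card * ∏ P ∈ s, gP P ^ 2) ≤ (Real.exp 3 * r) ^ 4 / (Fintype.card F : ℝ) ^ J := by
    refine (mul_le_mul_of_nonneg_left h2 (by positivity)).trans (le_of_eq ?_)
    rw [pow_add]
    field_simp
  have h6 := (abs_le.mp h1).1
  have h7 := le_abs_self C
  linarith

theorem GG_nonneg {F : Type} [Field F] [Fintype F] (n : ℕ) (Q : F[X]) : 0 ≤ GG n Q := by
  unfold GG
  exact sum_nonneg (fun _ _ => sq_nonneg _)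

theorem Th_ge {F : Type} [Field F] [Fintype F] {n : ℕ} (hn : 1 ≤ n) :
    (Fintype.card F : ℝ) ^ n - 2 * (Fintype.card F : ℝ) ^ (n / 2) ≤ Th F n := by
  have hnr : (0:ℝ) < n := by exact_mod_cast hn
  have h1 := Pool.Agent.H523.FF.Ir_card_lower (F := F) n (by omega)
  have h3 := mul_le_mul_of_nonneg_left h1 hnr.le
  have h4 : (n:ℝ) * ((Fintype.card F : ℝ) ^ n / n - 2 * (Fintype.card F : ℝ) ^ (n / 2) / n) =
      (Fintype.card F : ℝ) ^ n - 2 * (Fintype.card F : ℝ) ^ (n / 2) := by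
    field_simp
  rw [h4] at h3
  unfold Th
  rw [CM.sum_th]
  exact h3

/-- one modulus -/
theorem GG_lower {C : ℝ} (hX : ∀ (F : Type) [Field F] [Fintype F] (K J r : ℕ), K + J ≤ r → 1 ≤ r →
      ((r:ℝ) - (K + J : ℕ)) - C - (Real.exp 3 * r) ^ 4 / (Fintype.card F : ℝ) ^ J ≤
        ∑ s ∈ SF F r \ SF F (K + J), ∑ h ∈ PL F K, ∏ P ∈ s, cB P h)
    (hG : S_G) (hL : S_L) (F : Type) [Field F] [Fintype F] (n d J r : ℕ) (Q : F[X])
    (hQ : Q ∈ Ir F d) (hdn : d < n) (hr : 1 ≤ r) (hrd : r < d) (hrn : 2 * r ≤ n)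
    (hJ : n - d + J ≤ r) (h4 : 4 * (Fintype.card F : ℝ) ^ (n / 2) ≤ (Fintype.card F : ℝ) ^ n)
    (hX0 : 0 ≤ ((r:ℝ) - (n - d + J : ℕ)) - C - (Real.exp 3 * r) ^ 4 / (Fintype.card F : ℝ) ^ J) :
    ((Fintype.card F : ℝ) ^ n - 4 * (Fintype.card F : ℝ) ^ (n / 2)) *
      (((r:ℝ) - (n - d + J : ℕ)) - C - (Real.exp 3 * r) ^ 4 / (Fintype.card F : ℝ) ^ J) -
      2 * |∑ s ∈ SF F r \ SF F (n - d + J), ET n s Q| -
      2 * (2 * (Fintype.card F : ℝ) ^ (n - d)) *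
        (Real.exp 3 * r * (((n - d : ℕ) : ℝ) + 1) * (Fintype.card F : ℝ) ^ (n - d)) ≤ GG n Q := by
  obtain ⟨hQm, hirr, hQd⟩ := mem_Ir.mp hQ
  have hq := two_le_card (F := F)
  set q : ℝ := (Fintype.card F : ℝ) with hqd
  have hq0 : 0 < q := by linarith
  have hg := hG F n r (n - d + J) Q hQm hirr (by omega) (by omega) hrn
  have hl := hL F n r (n - d + J) Q hQm hirr (by omega) (by omega) hr
  have hx := hX F (n - d) J r hJ hr
  rw [hQd] at hg hl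
  have hT := Th_ge (F := F) (n := n) (by omega)
  rw [← hqd] at hT hg hl hx
  set X := ∑ s ∈ SF F r \ SF F (n - d + J), ∑ h ∈ PL F (n - d), ∏ P ∈ s, cB P h with hXd
  set X0 := ((r:ℝ) - (n - d + J : ℕ)) - C - (Real.exp 3 * r) ^ 4 / q ^ J with hX0d
  have htot : q ^ n / tot Q ≤ 2 * q ^ (n - d) := by
    have h1 : (tot Q : ℝ) = q ^ d - 1 := by
      have h2 := CM.tot_eq_card (Q := Q) hQm
      rw [h2, CM.card_units hQm hirr, hQd]
    have h2 : (2:ℝ) ≤ q ^ d := by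
      calc (2:ℝ) ≤ q := hq
        _ ≤ q ^ d := le_self_pow₀ (by linarith) (by omega)
    rw [h1, div_le_iff₀ (by linarith)]
    have h3 : q ^ n = q ^ (n - d) * q ^ d := by
      rw [← pow_add]
      congr 1
      omega
    rw [h3]
    have h5 : 0 < q ^ (n - d) := by positivity
    nlinarith
  have hAbs0 : 0 ≤ |∑ f ∈ (Mon F n).filter (fun f => Q ∣ f),
      LS (SF F r \ SF F (n - d + J)) f| := abs_nonneg _
  have h5 : 2 * (q ^ n / tot Q) * |∑ f ∈ (Mon F n).filter (fun f => Q ∣ f),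
      LS (SF F r \ SF F (n - d + J)) f| ≤ 2 * (2 * q ^ (n - d)) *
        (Real.exp 3 * r * (((n - d : ℕ) : ℝ) + 1) * q ^ (n - d)) := by
    apply mul_le_mul _ hl hAbs0 (by positivity)
    linarith
  have h6 : (q ^ n - 4 * q ^ (n / 2)) * X0 ≤ (2 * Th F n - q ^ n) * X := by
    have h7 : q ^ n - 4 * q ^ (n / 2) ≤ 2 * Th F n - q ^ n := by linarith
    calc (q ^ n - 4 * q ^ (n / 2)) * X0 ≤ (2 * Th F n - q ^ n) * X0 :=
          mul_le_mul_of_nonneg_right h7 hX0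
      _ ≤ _ := mul_le_mul_of_nonneg_left hx (by linarith)
  linarith

end Pool.Agent.H523.ZG
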