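import Pool.Agent.H523.ZG.B1

set_option autoImplicit false
set_option linter.unusedSectionVars false

/-! # The lower bound of the variance for almost all primes: the exceptional set -/

namespace Pool.Agent.H523.ZG

open Polynomial Finset
open Pool.Agent.H341R2.Sharp (Mon mem_Mon)
open Pool.Agent.H523.FF (Ir mem_Ir PL mem_PL card_PL two_le_card IrLE mem_IrLE)
open Pool.Agent.H523.CM (gP aP cB SF LS th vth tot GG MSq Nav pw zs mem_SF poly_le_exp)

open scoped Classical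

/-- the primes with a small variance -/
def BadG {F : Type} [Field F] [Fintype F] (ε η : ℝ) (Q : F[X]) : Prop :=
  ∃ n : ℕ, Q.natDegree < n ∧ (n:ℝ) ≤ (2 - ε) * Q.natDegree ∧
    GG n Q < (Fintype.card F : ℝ) ^ n * (Q.natDegree - (n:ℝ) / 2 - η * Q.natDegree)

/-- the pointwise part -/
theorem good_pointwise {C : ℝ} (hC0 : 0 ≤ C)
    (hX : ∀ (F : Type) [Field F] [Fintype F] (K J r : ℕ), K + J ≤ r → 1 ≤ r →
      ((r:ℝ) - (K + J : ℕ)) - C - (Real.exp 3 * r) ^ 4 / (Fintype.card F : ℝ) ^ J ≤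
        ∑ s ∈ SF F r \ SF F (K + J), ∑ h ∈ PL F K, ∏ P ∈ s, cB P h)
    (hG : S_G) (hL : S_L) (ε η : ℝ) (hε : 0 < ε) (hη : 0 < η) : ∃ N : ℕ,
    ∀ (F : Type) [Field F] [Fintype F] (d n : ℕ) (Q : F[X]), N ≤ d → Q ∈ Ir F d → d < n →
      (n:ℝ) ≤ (2 - ε) * d →
      |∑ s ∈ SF F (n / 2) \ SF F (n - d + (⌊η / 4 * d⌋₊ + 1)), ET n s Q| ≤
        (Fintype.card F : ℝ) ^ n * (η * d / 8) →
      (Fintype.card F : ℝ) ^ n * (d - (n:ℝ) / 2 - η * d) ≤ GG n Q := by
  obtain ⟨N₁, hN₁⟩ := poly_le_exp 4 1 (1 / 2) (by norm_num)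
  obtain ⟨N₂, hN₂⟩ := poly_le_exp (8 * Real.exp 3) 2 ε hε
  obtain ⟨N₃, hN₃⟩ := poly_le_exp (Real.exp 3 ^ 4) 4 (η / 4) (by linarith)
  refine ⟨N₁ + N₂ + N₃ + ⌈(2 * (C + 6)) / η⌉₊ + 8, ?_⟩
  intro F _ _ d n Q hd hQ hdn hn2 hW
  have hq := two_le_card (F := F)
  set q : ℝ := (Fintype.card F : ℝ) with hqd
  have hq0 : 0 < q := by linarith
  have hq1 : 1 ≤ q := by linarith
  have hdr : (8:ℝ) ≤ d := by exact_mod_cast (show 8 ≤ d by omega)
  have hηd : 2 * (C + 6) ≤ η * d := by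
    have h1 : (2 * (C + 6)) / η ≤ d := by
      refine (Nat.le_ceil _).trans ?_
      exact_mod_cast (show ⌈(2 * (C + 6)) / η⌉₊ ≤ d by omega)
    rw [div_le_iff₀ hη] at h1
    linarith
  set J : ℕ := ⌊η / 4 * d⌋₊ + 1 with hJ
  have hJ1 : (J:ℝ) ≤ η / 4 * d + 1 := by
    rw [hJ]
    push_cast
    have := Nat.floor_le (show 0 ≤ η / 4 * d by positivity)
    linarith
  have hJ2 : η / 4 * d < J := by
    rw [hJ]
    push_cast
    exact Nat.lt_floor_add_one _
  set r : ℕ := n / 2 with hr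
  have hr1 : (n:ℝ) / 2 - 1 / 2 ≤ r := by
    have : n ≤ 2 * r + 1 := by omega
    have h2 : (n:ℝ) ≤ 2 * r + 1 := by exact_mod_cast this
    linarith
  have hr2 : (r:ℝ) ≤ n / 2 := by
    have : 2 * r ≤ n := by omega
    have h2 : 2 * (r:ℝ) ≤ n := by exact_mod_cast this
    linarith
  have hnd : ((n - d : ℕ) : ℝ) = (n:ℝ) - d := Nat.cast_sub hdn.le
  have hn2d : (n:ℝ) < 2 * d := by nlinarith
  have hrd : r < d := by
    have : (r:ℝ) < d := by linarith
    exact_mod_cast this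
  have hGG0 := GG_nonneg n Q
  have hqn : 0 < q ^ n := by positivity
  -- trivial case
  by_cases hneg : d - (n:ℝ) / 2 - η * d ≤ 0
  · exact (mul_nonpos_of_nonneg_of_nonpos hqn.le hneg).trans hGG0
  rw [not_le] at hneg
  have hTr : n - d + J ≤ r := by
    have h1 : ((n - d + J : ℕ) : ℝ) ≤ r := by
      push_cast
      rw [hnd]
      nlinarith
    exact_mod_cast h1
  -- the error terms
  have hE1 : (Real.exp 3 * r) ^ 4 / q ^ J ≤ 1 := by
    rw [div_le_one (by positivity)]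
    have h1 := hN₃ d (by omega)
    have h2 : ((2:ℝ) ^ (η / 4)) ^ d ≤ q ^ J := by
      calc ((2:ℝ) ^ (η / 4)) ^ d = (2:ℝ) ^ (η / 4 * d) := by
            rw [Real.rpow_mul (by norm_num), Real.rpow_natCast]
        _ ≤ (2:ℝ) ^ (J:ℝ) := Real.rpow_le_rpow_of_exponent_le (by norm_num) hJ2.le
        _ = 2 ^ J := Real.rpow_natCast _ _
        _ ≤ q ^ J := pow_le_pow_left₀ (by norm_num) hq _
    have h3 : (Real.exp 3 * r) ^ 4 ≤ Real.exp 3 ^ 4 * (d:ℝ) ^ 4 := by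
      rw [mul_pow]
      apply mul_le_mul_of_nonneg_left _ (by positivity)
      apply pow_le_pow_left₀ (by positivity)
      exact_mod_cast hrd.le
    linarith
  have hE2 : 4 * q ^ (n / 2) * d ≤ q ^ n := by
    have h1 := hN₁ d (by omega)
    rw [pow_one] at h1
    have h2 : ((2:ℝ) ^ ((1:ℝ) / 2)) ^ d ≤ q ^ (n - n / 2) := by
      calc ((2:ℝ) ^ ((1:ℝ) / 2)) ^ d = (2:ℝ) ^ ((1:ℝ) / 2 * d) := by
            rw [Real.rpow_mul (by norm_num), Real.rpow_natCast]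
        _ ≤ (2:ℝ) ^ ((n - n / 2 : ℕ) : ℝ) := by
            apply Real.rpow_le_rpow_of_exponent_le (by norm_num)
            have h3 : n ≤ 2 * (n - n / 2) := by omega
            have h4 : (n:ℝ) ≤ 2 * ((n - n / 2 : ℕ) : ℝ) := by exact_mod_cast h3
            have h5 : (d:ℝ) < n := by exact_mod_cast hdn
            linarith
        _ = 2 ^ (n - n / 2) := Real.rpow_natCast _ _
        _ ≤ q ^ (n - n / 2) := pow_le_pow_left₀ (by norm_num) hq _
    have h3 : q ^ n = q ^ (n / 2) * q ^ (n - n / 2) := by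
      rw [← pow_add]
      congr 1
      omega
    rw [h3]
    have h4 : 0 < q ^ (n / 2) := by positivity
    calc 4 * q ^ (n / 2) * d = q ^ (n / 2) * (4 * d) := by ring
      _ ≤ q ^ (n / 2) * q ^ (n - n / 2) := mul_le_mul_of_nonneg_left (h1.trans h2) h4.le
  have hE3 : 2 * (2 * q ^ (n - d)) * (Real.exp 3 * r * (((n - d : ℕ) : ℝ) + 1) * q ^ (n - d)) ≤
      q ^ n := by
    have h1 := hN₂ d (by omega)
    have hlt : 2 * (n - d) ≤ n := by
      have : n < 2 * d := by exact_mod_cast hn2d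
      omega
    have h2 : ((2:ℝ) ^ ε) ^ d ≤ q ^ (n - 2 * (n - d)) := by
      calc ((2:ℝ) ^ ε) ^ d = (2:ℝ) ^ (ε * d) := by
            rw [Real.rpow_mul (by norm_num), Real.rpow_natCast]
        _ ≤ (2:ℝ) ^ ((n - 2 * (n - d) : ℕ) : ℝ) := by
            apply Real.rpow_le_rpow_of_exponent_le (by norm_num)
            rw [Nat.cast_sub hlt]
            push_cast
            rw [hnd]
            linarith
        _ = 2 ^ (n - 2 * (n - d)) := Real.rpow_natCast _ _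
        _ ≤ q ^ (n - 2 * (n - d)) := pow_le_pow_left₀ (by norm_num) hq _
    have h3 : q ^ n = q ^ (n - d) * q ^ (n - d) * q ^ (n - 2 * (n - d)) := by
      rw [← pow_add, ← pow_add]
      congr 1
      omega
    have h4 : (r:ℝ) * (((n - d : ℕ) : ℝ) + 1) ≤ 2 * (d:ℝ) ^ 2 := by
      have h5 : (r:ℝ) ≤ d := by linarith
      have h6 : ((n - d : ℕ) : ℝ) + 1 ≤ 2 * d := by
        rw [hnd]
        linarith
      calc (r:ℝ) * (((n - d : ℕ) : ℝ) + 1) ≤ d * (2 * d) :=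
            mul_le_mul h5 h6 (by positivity) (by positivity)
        _ = _ := by ring
    have h7 : 0 < q ^ (n - d) := by positivity
    calc 2 * (2 * q ^ (n - d)) * (Real.exp 3 * r * (((n - d : ℕ) : ℝ) + 1) * q ^ (n - d))
        = q ^ (n - d) * q ^ (n - d) * (4 * Real.exp 3 * (r * (((n - d : ℕ) : ℝ) + 1))) := by ring
      _ ≤ q ^ (n - d) * q ^ (n - d) * (8 * Real.exp 3 * (d:ℝ) ^ 2) := by
          apply mul_le_mul_of_nonneg_left _ (by positivity)
          have h8 := mul_le_mul_of_nonneg_left h4 (by positivity : (0:ℝ) ≤ 4 * Real.exp 3)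
          linarith
      _ ≤ q ^ (n - d) * q ^ (n - d) * q ^ (n - 2 * (n - d)) :=
          mul_le_mul_of_nonneg_left (h1.trans h2) (by positivity)
      _ = q ^ n := h3.symm
  set X0 := ((r:ℝ) - (n - d + J : ℕ)) - C - (Real.exp 3 * r) ^ 4 / q ^ J with hX0d
  have hX01 : d - (n:ℝ) / 2 - η / 4 * d - C - 5 / 2 ≤ X0 := by
    rw [hX0d]
    push_cast
    rw [hnd]
    linarith
  have hX00 : 0 ≤ X0 := by
    have : 0 ≤ d - (n:ℝ) / 2 - η / 4 * d - C - 5 / 2 := by nlinarith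
    linarith
  have hX0d' : X0 ≤ d := by
    rw [hX0d]
    have h1 : 0 ≤ (Real.exp 3 * r) ^ 4 / q ^ J := by positivity
    have h2 : (0:ℝ) ≤ ((n - d + J : ℕ) : ℝ) := Nat.cast_nonneg _
    linarith
  have h4q : 4 * q ^ (n / 2) ≤ q ^ n := by
    have h1 : 0 < q ^ (n / 2) := by positivity
    nlinarith
  have hg := GG_lower hX hG hL F n d J r Q hQ hdn (by omega) hrd (by omega) hTr h4q hX00
  rw [← hqd] at hg
  have h8 : q ^ (n / 2) * 4 * X0 ≤ q ^ n := by
    have h1 : 0 < q ^ (n / 2) := by positivity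
    calc q ^ (n / 2) * 4 * X0 ≤ q ^ (n / 2) * 4 * d :=
          mul_le_mul_of_nonneg_left hX0d' (by positivity)
      _ = 4 * q ^ (n / 2) * d := by ring
      _ ≤ _ := hE2
  have h9 : q ^ n * (d - (n:ℝ) / 2 - η / 4 * d - C - 5 / 2) ≤ q ^ n * X0 :=
    mul_le_mul_of_nonneg_left hX01 hqn.le
  have h10 : q ^ n * (d - (n:ℝ) / 2 - η * d) ≤ q ^ n * (d - (n:ℝ) / 2 - η / 4 * d - C - 5 / 2) -
      q ^ n - 2 * (q ^ n * (η * d / 8)) - q ^ n := by
    have h11 : q ^ n * (d - (n:ℝ) / 2 - η / 4 * d - C - 5 / 2) -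
      q ^ n - 2 * (q ^ n * (η * d / 8)) - q ^ n =
      q ^ n * (d - (n:ℝ) / 2 - η / 2 * d - C - 9 / 2) := by ring
    rw [h11]
    apply mul_le_mul_of_nonneg_left _ hqn.le
    linarith
  linarith

end Pool.Agent.H523.ZG
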