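import Pool.Agent.H261.ZG.K12
import Pool.Agent.H675.ZG.K3
import Pool.Agent.H155.ZG.K5

set_option autoImplicit false
set_option linter.unusedSectionVars false

/-! # The kernel -/

namespace Pool.Agent.H523.ZG

open Finset

/-- the inequality for the coefficients, with a margin -/
def S_K4p : Prop := ∀ a : ℕ → ℕ → ℝ, (∃ C : ℝ, ∀ d : ℕ, 1 ≤ d → ∀ m : ℕ, m ≤ 2 * d →
    |a d m - 1 / (2 * d) * (B2 ((m:ℝ) / d) + cc ^ 2 * Bx ((m:ℝ) / d))| ≤ C / (d:ℝ) ^ 2) →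
  ∃ η : ℝ, 0 < η ∧ η ≤ 1 / 100 ∧ ∃ D₀ : ℕ, ∀ d : ℕ, D₀ ≤ d → 0 ≤ a d 0 ∧
  (1 + η) * (d:ℝ) * (a d 0 + 2 * ∑ m ∈ Icc 1 (2 * d), a d m) <
    a d 0 * ((d:ℝ) - 2) ^ 2 + 2 * ∑ m ∈ Icc 1 (2 * d),
      (if (m:ℝ) ≤ (4 / 3 - η) * d then a d m * min (m:ℝ) d - η * d * |a d m|
        else if (m:ℝ) ≤ (2 - η) * d then a d m * (d - (m:ℝ) / 2 - η * d) else 0)

/-- the values of the kernel -/
noncomputable def Hk (d : ℕ) (θ : ℝ) : ℝ :=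
  aa d 0 + 2 * ∑ m ∈ Icc 1 (2 * d), aa d m * Real.cos (m * θ)

theorem Gx_nonneg {x : ℝ} (h : |x| ≤ 1) : 0 ≤ Gx x := by
  unfold Gx
  have h1 : x ^ 2 ≤ 1 := by
    rw [← sq_abs]
    exact pow_le_one₀ (abs_nonneg x) h
  have h2 : 0 ≤ 1 - x ^ 2 / 2 := by linarith
  positivity

theorem gg_nonneg (d : ℕ) (j : ℤ) : 0 ≤ gg d j := by
  unfold gg
  split_ifs with h
  · apply Gx_nonneg
    have h1 : |(j:ℝ)| ≤ d := by exact_mod_cast h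
    rw [abs_div, Nat.abs_cast]
    exact div_le_one_of_le₀ h1 (Nat.cast_nonneg _)
  · exact le_rfl

theorem kernel (hK4 : S_K4p) : ∃ η : ℝ, 0 < η ∧ η ≤ 1 / 100 ∧ ∃ D₀ : ℕ, ∀ d : ℕ, D₀ ≤ d →
    0 ≤ aa d 0 ∧ (∀ m : ℕ, d ≤ m → 0 ≤ aa d m) ∧
    (∀ θ : ℝ, Real.cos θ ≤ Real.cos (cc / d) → Hk d θ ≤ 0) ∧
    (∀ θ : ℝ, Hk d θ ≤ Hk d 0) ∧ 0 ≤ Hk d 0 ∧
    (1 + η) * (d:ℝ) * Hk d 0 <
      aa d 0 * ((d:ℝ) - 2) ^ 2 + 2 * ∑ m ∈ Icc 1 (2 * d),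
        (if (m:ℝ) ≤ (4 / 3 - η) * d then aa d m * min (m:ℝ) d - η * d * |aa d m|
          else if (m:ℝ) ≤ (2 - η) * d then aa d m * (d - (m:ℝ) / 2 - η * d) else 0) := by
  have hK1 := Pool.Agent.H261.ZG.mainK1
  have hK2 := Pool.Agent.H261.ZG.mainK2
  obtain ⟨C, hC⟩ := Pool.Agent.H675.ZG.K3.main
  have hK5 := Pool.Agent.H155.ZG.main
  obtain ⟨η, hη, hη1, D₀, hD₀⟩ := hK4 aa ⟨C, fun d hd m hm => by
    rw [← hK5]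
    exact hC d hd m hm⟩
  refine ⟨η, hη, hη1, D₀ + 1, fun d hd => ?_⟩
  have hd1 : 1 ≤ d := by omega
  obtain ⟨h0, hlt⟩ := hD₀ d (by omega)
  have hid : ∀ θ : ℝ, Hk d θ = (Real.cos θ - Real.cos (cc / d)) *
      ‖∑ j ∈ Icc (-(d:ℤ)) d, (gg d j : ℂ) * Complex.exp (Complex.I * (j:ℂ) * θ)‖ ^ 2 :=
    fun θ => hK1 d hd1 θ
  have hH0 : Hk d 0 = aa d 0 + 2 * ∑ m ∈ Icc 1 (2 * d), aa d m := by
    unfold Hk
    simp only [mul_zero, Real.cos_zero, mul_one]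
  have hN : ∀ θ : ℝ, ‖∑ j ∈ Icc (-(d:ℤ)) d, (gg d j : ℂ) * Complex.exp (Complex.I * (j:ℂ) * θ)‖ ≤
      ‖∑ j ∈ Icc (-(d:ℤ)) d, (gg d j : ℂ) * Complex.exp (Complex.I * (j:ℂ) * (0:ℝ))‖ := by
    intro θ
    have h1 : ∑ j ∈ Icc (-(d:ℤ)) d, (gg d j : ℂ) * Complex.exp (Complex.I * (j:ℂ) * (0:ℝ)) =
        ((∑ j ∈ Icc (-(d:ℤ)) d, gg d j : ℝ) : ℂ) := by
      push_cast
      refine sum_congr rfl (fun j _ => ?_)
      rw [mul_zero, Complex.exp_zero, mul_one]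
    have h2 : 0 ≤ ∑ j ∈ Icc (-(d:ℤ)) d, gg d j := sum_nonneg (fun j _ => gg_nonneg d j)
    rw [h1, Complex.norm_real, Real.norm_eq_abs, abs_of_nonneg h2]
    refine (norm_sum_le _ _).trans (le_of_eq ?_)
    refine sum_congr rfl (fun j _ => ?_)
    have h3 : Complex.I * (j:ℂ) * (θ:ℂ) = (((j:ℝ) * θ : ℝ) : ℂ) * Complex.I := by
      push_cast
      ring
    rw [norm_mul, h3, Complex.norm_exp_ofReal_mul_I, mul_one, Complex.norm_real, Real.norm_eq_abs,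
      abs_of_nonneg (gg_nonneg d j)]
  have hcos : 0 ≤ Real.cos 0 - Real.cos (cc / d) := by
    rw [Real.cos_zero]
    linarith [Real.cos_le_one (cc / d)]
  have hH00 : 0 ≤ Hk d 0 := by
    rw [hid 0]
    exact mul_nonneg hcos (sq_nonneg _)
  have hneg : ∀ θ : ℝ, Real.cos θ ≤ Real.cos (cc / d) → Hk d θ ≤ 0 := by
    intro θ hθ
    rw [hid θ]
    exact mul_nonpos_of_nonpos_of_nonneg (by linarith) (sq_nonneg _)
  refine ⟨h0, fun m hm => hK2 d hd1 m hm, hneg, ?_, hH00, ?_⟩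
  · intro θ
    rcases le_or_gt (Real.cos θ) (Real.cos (cc / d)) with h | h
    · exact (hneg θ h).trans hH00
    · rw [hid θ, hid 0]
      apply mul_le_mul _ _ (sq_nonneg _) hcos
      · rw [Real.cos_zero]
        linarith [Real.cos_le_one θ]
      · exact pow_le_pow_left₀ (norm_nonneg _) (hN θ) 2
  · rw [hH0]
    exact hlt

end Pool.Agent.H523.ZG
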