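import Pool.Agent.H523.ZG.All
import Pool.Agent.H523.AH.Prop
import Pool.Agent.H181.AH.C1
import Pool.Agent.H65.AH.X
import Pool.Agent.H106.AH.N4
import Pool.Agent.H335.AH.P4
import Pool.Agent.H273.AH.M4

set_option autoImplicit false
set_option linter.unusedSectionVars false

/-! # A positive proportion of the gaps is below half of the mean spacing -/

namespace Pool.Agent.H523.ZG

open Polynomial Finset
open Pool.Agent.H523.FF (Ir mem_Ir PL mem_PL card_PL two_le_card IrLE mem_IrLE)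
open Pool.Agent.H523.CM (GG MSq Nav pw zs BadQ poly_le_exp tot)

open scoped Classical

theorem countP_eq' (l : List ℂ) (p : ℂ → Prop) [DecidablePred p] :
    ((l : Multiset ℂ).countP p : ℝ) = ∑ k : Fin l.length, (if p (l.get k) then (1:ℝ) else 0) := by
  have hval : (l : Multiset ℂ) = (Finset.univ : Finset (Fin l.length)).val.map l.get := by
    rw [Fin.univ_val_map, List.ofFn_get]
  have h : (l : Multiset ℂ).countP p = ∑ k : Fin l.length, (if p (l.get k) then 1 else 0) := by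
    conv_lhs => rw [hval]
    rw [Multiset.countP_map, ← Finset.filter_val, Finset.card_val, Finset.card_filter]
  rw [h]
  push_cast
  rfl

theorem close_count {R : ℝ} {d : ℕ} (Z : Multiset ℂ) {δ : ℝ}
    (hR : ∀ θ : ℝ, |θ| < δ → |d * θ / (2 * Real.pi)| ≤ R) {t : ℝ} (ht : 0 < t) :
    (close δ Z : ℝ) ≤ Z.card +
      t * (Z.countP (fun u => 2 ≤ Z.countP (fun v => |Complex.arg (u / v)| < δ)) : ℝ) +
      AH.nsq R d Z / (4 * t) := by
  obtain ⟨l, rfl⟩ : ∃ l : List ℂ, (l : Multiset ℂ) = Z := Quot.exists_rep Z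
  have h1 : (close δ (l : Multiset ℂ) : ℝ) = ∑ j : Fin l.length,
      ((l : Multiset ℂ).countP (fun v => |Complex.arg (l.get j / v)| < δ) : ℝ) := by
    have h : (close δ (l : Multiset ℂ) : ℝ) =
        ((l : Multiset ℂ).map (fun u => ((l : Multiset ℂ).countP
          (fun v => |Complex.arg (u / v)| < δ) : ℝ))).sum := by
      unfold close
      rw [Nat.cast_multiset_sum, Multiset.map_map]
      rfl
    rw [h, Pool.Agent.H181.AHC1.sum_eq]
  have h2 : (((l : Multiset ℂ).card : ℕ) : ℝ) = ∑ j : Fin l.length, (1:ℝ) := by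
    simp
  have h3 : AH.nsq R d (l : Multiset ℂ) =
      ∑ j : Fin l.length, (AH.near R d (l : Multiset ℂ) (l.get j) : ℝ) ^ 2 :=
    Pool.Agent.H181.AHC1.sum_eq l _
  rw [h1, h2, h3, countP_eq' l (fun u => 2 ≤ (l : Multiset ℂ).countP
    (fun v => |Complex.arg (u / v)| < δ)), mul_sum, sum_div, ← sum_add_distrib,
    ← sum_add_distrib]
  refine sum_le_sum (fun j _ => ?_)
  have h4 : ((l : Multiset ℂ).countP (fun v => |Complex.arg (l.get j / v)| < δ) : ℝ) ≤
      (AH.near R d (l : Multiset ℂ) (l.get j) : ℝ) := by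
    unfold AH.near
    rw [countP_eq' l (fun v => |Complex.arg (l.get j / v)| < δ),
      countP_eq' l (fun v => |d * Complex.arg (l.get j / v) / (2 * Real.pi)| ≤ R)]
    refine sum_le_sum (fun k _ => ?_)
    by_cases h : |Complex.arg (l.get j / l.get k)| < δ
    · rw [if_pos h, if_pos (hR _ h)]
    · rw [if_neg h]
      split_ifs
      · exact zero_le_one
      · exact le_rfl
  have h5 : 0 ≤ (AH.near R d (l : Multiset ℂ) (l.get j) : ℝ) ^ 2 / (4 * t) := by positivity
  by_cases h : 2 ≤ (l : Multiset ℂ).countP (fun v => |Complex.arg (l.get j / v)| < δ)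
  · rw [if_pos h, mul_one]
    have h6 := Pool.Agent.H181.AHC1.am (x := (AH.near R d (l : Multiset ℂ) (l.get j) : ℝ)) ht
    linarith
  · rw [if_neg h, mul_zero, add_zero]
    have h6 : (l : Multiset ℂ).countP (fun v => |Complex.arg (l.get j / v)| < δ) ≤ 1 := by omega
    have h7 : ((l : Multiset ℂ).countP (fun v => |Complex.arg (l.get j / v)| < δ) : ℝ) ≤ 1 := by
      exact_mod_cast h6
    linarith

theorem nsq_mean' : ∃ K : ℝ, 0 < K ∧ ∀ (F : Type) [Field F] [Fintype F]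
    (Q : F[X]) [Fintype (MulChar (AdjoinRoot Q) ℂ)], Q.Monic → Irreducible Q →
    10 ^ 8 ≤ Q.natDegree →
    ∑ χ ∈ (univ : Finset (MulChar (AdjoinRoot Q) ℂ)).erase 1, AH.nsq 2000000 Q.natDegree (zs χ) ≤
      K * ∑ χ ∈ (univ : Finset (MulChar (AdjoinRoot Q) ℂ)).erase 1, ((zs χ).card : ℝ) :=
  AH.nsq_mean Pool.Agent.H65.AH.main
    (Pool.Agent.H273.AH.M4.main Pool.Agent.H106.AHN4.main Pool.Agent.H335.AH.P4.main)

/-- **A positive proportion of the gaps is below half of the mean spacing** -/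
theorem gaps2 : ∃ c : ℝ, 0 < c ∧ ∃ δ : ℝ, 0 < δ ∧ ∃ N : ℕ,
    ∀ (F : Type) [Field F] [Fintype F] (d : ℕ), N ≤ d → ∃ E : Finset F[X],
      (E.card : ℝ) ≤ (Fintype.card F : ℝ) ^ ((d:ℝ) - δ * d) ∧
      ∀ Q : F[X], Q.Monic → Irreducible Q → Q.natDegree = d → Q ∉ E →
        ∀ [Fintype (MulChar (AdjoinRoot Q) ℂ)],
        c * ∑ χ ∈ (univ : Finset (MulChar (AdjoinRoot Q) ℂ)).erase 1, ((zs χ).card : ℝ) ≤
          ∑ χ ∈ (univ : Finset (MulChar (AdjoinRoot Q) ℂ)).erase 1,
            ((zs χ).countP (fun u => 2 ≤ (zs χ).countP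
              (fun v => |Complex.arg (u / v)| < cc / d)) : ℝ) := by
  obtain ⟨c, hc, δ, hδ, N, hN⟩ := gaps
  obtain ⟨K, hK, hnsq⟩ := nsq_mean'
  refine ⟨c ^ 2 / K, by positivity, δ, hδ, max N (10 ^ 8), ?_⟩
  intro F _ _ d hd
  obtain ⟨E, hE, hgood⟩ := hN F d (le_trans (le_max_left _ _) hd)
  have hd8 : 10 ^ 8 ≤ d := le_trans (le_max_right _ _) hd
  have hdr : (10:ℝ) ^ 8 ≤ d := by exact_mod_cast hd8
  have hd0 : (0:ℝ) < d := by linarith
  refine ⟨E, hE, ?_⟩
  intro Q hQ hirr hQd hQE _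
  have h1 := hgood Q hQ hirr hQd hQE
  have h2 := hnsq F Q hQ hirr (by omega)
  rw [hQd] at h2
  set S := (univ : Finset (MulChar (AdjoinRoot Q) ℂ)).erase 1 with hS
  set A := ∑ χ ∈ S, ((zs χ).card : ℝ) with hA
  set B := ∑ χ ∈ S, ((zs χ).countP (fun u => 2 ≤ (zs χ).countP
              (fun v => |Complex.arg (u / v)| < cc / d)) : ℝ) with hB
  have hpi := Real.pi_pos
  have hR : ∀ θ : ℝ, |θ| < cc / d → |d * θ / (2 * Real.pi)| ≤ 2000000 := by
    intro θ hθ
    rw [abs_div, abs_mul, abs_of_pos hd0, abs_of_pos (by positivity : 0 < 2 * Real.pi),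
      div_le_iff₀ (by positivity)]
    rw [lt_div_iff₀ hd0] at hθ
    unfold cc at hθ
    have h3 : 2 * Real.pi * 0.489 ≤ 2000000 * (2 * Real.pi) := by linarith
    linarith
  have hone : ∀ χ ∈ S, (close (cc / d) (zs χ) : ℝ) ≤ ((zs χ).card : ℝ) +
      (K / (2 * c)) * ((zs χ).countP (fun u => 2 ≤ (zs χ).countP
              (fun v => |Complex.arg (u / v)| < cc / d)) : ℝ) +
      AH.nsq 2000000 d (zs χ) / (4 * (K / (2 * c))) :=
    fun χ _ => close_count (zs χ) hR (by positivity)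
  have h3 := sum_le_sum hone
  rw [sum_add_distrib, sum_add_distrib, ← mul_sum, ← sum_div, ← hA, ← hB] at h3
  have h4 : (∑ χ ∈ S, AH.nsq 2000000 d (zs χ)) / (4 * (K / (2 * c))) ≤
      (K * A) / (4 * (K / (2 * c))) := div_le_div_of_nonneg_right h2 (by positivity)
  have h5 : (K * A) / (4 * (K / (2 * c))) = c / 2 * A := by
    rw [div_eq_iff (by positivity)]
    field_simp
    ring
  have h6 : c / 2 * A ≤ K / (2 * c) * B := by linarith
  have h7 : c ^ 2 / K * A = (c / 2 * A) * (2 * c / K) := by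
    field_simp
  have h8 : (K / (2 * c) * B) * (2 * c / K) = B := by
    field_simp
  rw [h7, ← h8]
  exact mul_le_mul_of_nonneg_right h6 (by positivity)

end Pool.Agent.H523.ZG
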