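import Pool.Agent.H523.CM70

set_option autoImplicit false
set_option linter.unusedSectionVars false

/-! # Gaps between zeros below half of the mean spacing: the statements -/

namespace Pool.Agent.H523.ZG

open Polynomial Finset
open Pool.Agent.H341R2.Sharp (Mon mem_Mon)
open Pool.Agent.H523.FF (Ir mem_Ir PL mem_PL card_PL two_le_card IrLE mem_IrLE)
open Pool.Agent.H523.CM (gP aP cB SF LS th vth tot GG MSq Nav pw zs)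

open scoped Classical

/-- (A) the sum of `μ²(M)/φ(M)` over `T < deg M ≤ r` -/
def S_A : Prop := ∃ C : ℝ, ∀ (F : Type) [Field F] [Fintype F] (T r : ℕ), T ≤ r →
  |∑ s ∈ SF F r \ SF F T, ∏ P ∈ s, gP P - ((r:ℝ) - T)| ≤ C

/-- (Y) -/
def S_Y : Prop := ∀ (F : Type) [Field F] [Fintype F] (s : Finset F[X]) (K : ℕ),
  (∀ P ∈ s, P.Monic ∧ Irreducible P) → K < ∑ P ∈ s, P.natDegree →
  ∏ P ∈ s, gP P - (Fintype.card F : ℝ) ^ K * (2 ^ s.card * ∏ P ∈ s, gP P ^ 2) ≤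
    ∑ h ∈ PL F K, ∏ P ∈ s, cB P h

/-- (R) -/
def S_R : Prop := ∀ (F : Type) [Field F] [Fintype F] (T r : ℕ), 1 ≤ r →
  ∑ s ∈ SF F r \ SF F T, ((2:ℝ) ^ s.card * ∏ P ∈ s, gP P ^ 2) ≤
    (Real.exp 3 * r) ^ 4 / (Fintype.card F : ℝ) ^ T

/-- (V) the correlations of the model -/
def S_V : Prop := ∀ (F : Type) [Field F] [Fintype F] (n r : ℕ) (𝒮 : Finset (Finset F[X])) (B : F[X]),
  𝒮 ⊆ SF F r → 2 * r ≤ n →
  ∑ f ∈ Mon F n, LS 𝒮 f * LS 𝒮 (f - B) =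
    (Fintype.card F : ℝ) ^ n * ∑ s ∈ 𝒮, ∏ P ∈ s, cB P B

section
variable {F : Type} [Field F] [Fintype F]

/-- the sum of the weights of the primes -/
noncomputable def Th (F : Type) [Field F] [Fintype F] (n : ℕ) : ℝ := ∑ f ∈ Mon F n, th n f

/-- the error term of a set `s` of primes -/
noncomputable def ET (n : ℕ) (s : Finset F[X]) (Q : F[X]) : ℝ :=
  ∑ h ∈ (PL F (n - Q.natDegree)).filter (fun h => h ≠ 0),
    (∑ f ∈ Mon F n, th n f * ∏ P ∈ s, aP P (f - Q * h) - Th F n * ∏ P ∈ s, cB P h)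

/-- the error term of a modulus `M` -/
noncomputable def DM (n : ℕ) (M Q : F[X]) : ℝ :=
  ∑ h ∈ (PL F (n - Q.natDegree)).filter (fun h => h ≠ 0),
    (vth n M (Q * h) - if IsCoprime h M then Th F n / tot M else 0)

end

/-- (G) the lower bound of the variance, one modulus -/
def S_G : Prop := ∀ (F : Type) [Field F] [Fintype F] (n r T : ℕ) (Q : F[X]),
  Q.Monic → Irreducible Q → Q.natDegree < n → r < Q.natDegree → 2 * r ≤ n →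
  (2 * Th F n - (Fintype.card F : ℝ) ^ n) *
      (∑ s ∈ SF F r \ SF F T, ∑ h ∈ PL F (n - Q.natDegree), ∏ P ∈ s, cB P h) -
    2 * |∑ s ∈ SF F r \ SF F T, ET n s Q| -
    2 * ((Fintype.card F : ℝ) ^ n / tot Q) *
      |∑ f ∈ (Mon F n).filter (fun f => Q ∣ f), LS (SF F r \ SF F T) f| ≤ GG n Q

/-- (L) the class of zero -/
def S_L : Prop := ∀ (F : Type) [Field F] [Fintype F] (n r T : ℕ) (Q : F[X]),
  Q.Monic → Irreducible Q → Q.natDegree < n → r < Q.natDegree → 1 ≤ r →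
  |∑ f ∈ (Mon F n).filter (fun f => Q ∣ f), LS (SF F r \ SF F T) f| ≤
    Real.exp 3 * r * (((n - Q.natDegree : ℕ) : ℝ) + 1) * (Fintype.card F : ℝ) ^ (n - Q.natDegree)

/-- (D) the mean square of the error terms of one modulus `M` -/
def S_D : Prop := ∀ (F : Type) [Field F] [Fintype F] (n d : ℕ) (M : F[X]), M.Monic →
  M.natDegree ≤ d → d < n →
  ∑ Q ∈ (Mon F d).filter (fun Q => IsCoprime Q M), DM n M Q ^ 2 ≤
    9 * (n:ℝ) ^ 2 * ((Fintype.card F : ℝ) ^ (d - M.natDegree) * (Fintype.card F : ℝ) ^ n *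
      (Fintype.card F : ℝ) ^ (n - d))

/-- (E) the mean of the error terms -/
def S_E : Prop := ∀ (F : Type) [Field F] [Fintype F] (n d r T : ℕ), 1 ≤ r → r < d → d < n →
  ∑ Q ∈ Ir F d, |∑ s ∈ SF F r \ SF F T, ET n s Q| ≤
    3 * Real.exp 6 * (n:ℝ) ^ 4 * ((Fintype.card F : ℝ) ^ n *
      √((Fintype.card F : ℝ) ^ d * (Fintype.card F : ℝ) ^ r))

/-- (W) from the variance to the zeros -/
def S_W : Prop := ∀ η : ℝ, 0 < η → ∀ ε : ℝ, 0 < ε → ∃ N : ℕ,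
  ∀ (F : Type) [Field F] [Fintype F] (Q : F[X]) [Fintype (MulChar (AdjoinRoot Q) ℂ)],
    Q.Monic → Irreducible Q → N ≤ Q.natDegree → ∀ n : ℕ, Q.natDegree < n →
    (n:ℝ) ≤ (2 - ε) * Q.natDegree →
    (1 - η) * (GG n Q / (Fintype.card F : ℝ) ^ n) - η ≤ MSq Q n

/-- (K) the kernel -/
def S_K : Prop := ∃ η : ℝ, 0 < η ∧ η ≤ 1 / 100 ∧ ∃ D₀ : ℕ, ∀ d : ℕ, D₀ ≤ d → ∃ a : ℕ → ℝ,
  0 ≤ a 0 ∧ (∀ m : ℕ, d ≤ m → 0 ≤ a m) ∧
  (∀ θ : ℝ, Real.cos θ ≤ Real.cos (2 * Real.pi * 0.489 / d) →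
    a 0 + 2 * ∑ m ∈ Icc 1 (2 * d), a m * Real.cos (m * θ) ≤ 0) ∧
  0 ≤ a 0 + 2 * ∑ m ∈ Icc 1 (2 * d), a m ∧
  (d:ℝ) * (a 0 + 2 * ∑ m ∈ Icc 1 (2 * d), a m) <
    a 0 * ((d:ℝ) - 2) ^ 2 + 2 * ∑ m ∈ Icc 1 (2 * d),
      (if (m:ℝ) ≤ (4 / 3 - η) * d then a m * min (m:ℝ) d - η * d * |a m|
        else if (m:ℝ) ≤ (2 - η) * d then a m * (d - (m:ℝ) / 2 - η * d) else 0)

/-- (P) a kernel and the pairs of points of the circle -/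
def S_P : Prop := ∀ (Z : Multiset ℂ) (a : ℕ → ℝ) (M : ℕ) (δ : ℝ), 0 < δ → δ ≤ Real.pi →
  (∀ z ∈ Z, ‖z‖ = 1) →
  (∀ θ : ℝ, Real.cos θ ≤ Real.cos δ → a 0 + 2 * ∑ m ∈ Icc 1 M, a m * Real.cos (m * θ) ≤ 0) →
  (∀ u v : ℂ, ({u, v} : Multiset ℂ) ≤ Z → δ ≤ |Complex.arg (u / v)|) →
  a 0 * (Z.card : ℝ) ^ 2 + 2 * ∑ m ∈ Icc 1 M, a m * ‖(Z.map (fun z => z ^ m)).sum‖ ^ 2 ≤
    Z.card * (a 0 + 2 * ∑ m ∈ Icc 1 M, a m)

section
variable {F : Type} [Field F] [Fintype F]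

/-- the sum of a character over the primes of degree `n` -/
noncomputable def psi (n : ℕ) (M : F[X]) (χ : MulChar (AdjoinRoot M) ℂ) : ℂ :=
  ∑ f ∈ Mon F n, (th n f : ℂ) * χ (AdjoinRoot.mk M f)

/-- the sum of a character over the polynomials of degree less than `K` -/
noncomputable def hsum (K : ℕ) (M : F[X]) (χ : MulChar (AdjoinRoot M) ℂ) : ℂ :=
  ∑ h ∈ PL F K, χ (AdjoinRoot.mk M h)

end

/-- (D1) Weil's bound for the primes -/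
def S_D1 : Prop := ∀ (F : Type) [Field F] [Fintype F] (n : ℕ) (M : F[X])
  (χ : MulChar (AdjoinRoot M) ℂ), M.Monic → M.natDegree < n → χ ≠ 1 →
  ‖psi n M χ‖ ≤ 3 * n * (√(Fintype.card F : ℝ)) ^ n

/-- (D2) the mean square of the short sums -/
def S_D2 : Prop := ∀ (F : Type) [Field F] [Fintype F] (K : ℕ) (M : F[X])
  [Fintype (MulChar (AdjoinRoot M) ℂ)], M.Monic →
  ∑ χ ∈ (univ : Finset (MulChar (AdjoinRoot M) ℂ)).erase 1, ‖hsum K M χ‖ ^ 2 ≤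
    (tot M : ℝ) * (Fintype.card F : ℝ) ^ K

/-- (D3) Parseval's identity for the error terms of the modulus `M` -/
def S_D3 : Prop := ∀ (F : Type) [Field F] [Fintype F] (n d : ℕ) (M : F[X])
  [Fintype (MulChar (AdjoinRoot M) ℂ)], M.Monic → M.natDegree ≤ d → d < n →
  ∑ Q ∈ (Mon F d).filter (fun Q => IsCoprime Q M), DM n M Q ^ 2 ≤
    (Fintype.card F : ℝ) ^ (d - M.natDegree) / (tot M : ℝ) *
      ∑ χ ∈ (univ : Finset (MulChar (AdjoinRoot M) ℂ)).erase 1,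
        ‖psi n M χ‖ ^ 2 * ‖hsum (n - d) M χ‖ ^ 2

/-- (E1) the error term of a set of primes in terms of the moduli -/
def S_E1 : Prop := ∀ (F : Type) [Field F] [Fintype F] (n : ℕ) (s : Finset F[X]) (Q : F[X]),
  (∀ P ∈ s, P.Monic ∧ Irreducible P) →
  ET n s Q = ∑ t ∈ s.powerset, ((∏ P ∈ s \ t, gP P) * ∏ P ∈ t, (-(1 + gP P))) *
    DM n (∏ P ∈ t, P) Q

/-! the kernel -/

noncomputable def Gx (x : ℝ) : ℝ := (1 - x ^ 2) ^ 2 * (1 - x ^ 2 / 2)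

/-- the second derivative -/
noncomputable def G2 (x : ℝ) : ℝ := -5 + 24 * x ^ 2 - 15 * x ^ 4

noncomputable def gg (d : ℕ) (j : ℤ) : ℝ := if |j| ≤ (d:ℤ) then Gx ((j:ℝ) / d) else 0

noncomputable def cc : ℝ := 2 * Real.pi * 0.489

/-- the coefficients of the kernel -/
noncomputable def aa (d m : ℕ) : ℝ :=
  ∑ j ∈ Icc (-(d:ℤ)) d, gg d j * ((gg d (j + m + 1) + gg d (j + m - 1)) / 2 -
    Real.cos (cc / d) * gg d (j + m))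

/-- the self-correlation of `G` -/
noncomputable def Bx (x : ℝ) : ℝ := 33472 / 45045 - 96 / 77 * x ^ 2 + 36 / 35 * x ^ 4 -
  2 / 15 * x ^ 5 - 52 / 105 * x ^ 6 + 5 / 21 * x ^ 7 - 41 / 2520 * x ^ 9 + 1 / 1155 * x ^ 11 -
  1 / 48048 * x ^ 13

/-- its second derivative -/
noncomputable def B2 (x : ℝ) : ℝ := -192 / 77 + 432 / 35 * x ^ 2 - 8 / 3 * x ^ 3 - 104 / 7 * x ^ 4 +
  10 * x ^ 5 - 41 / 35 * x ^ 7 + 2 / 21 * x ^ 9 - 1 / 308 * x ^ 11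

/-- (K1) the kernel identity -/
def S_K1 : Prop := ∀ d : ℕ, 1 ≤ d → ∀ θ : ℝ,
  aa d 0 + 2 * ∑ m ∈ Icc 1 (2 * d), aa d m * Real.cos (m * θ) =
    (Real.cos θ - Real.cos (cc / d)) *
      ‖∑ j ∈ Icc (-(d:ℤ)) d, (gg d j : ℂ) * Complex.exp (Complex.I * (j:ℂ) * θ)‖ ^ 2

/-- (K2) the later coefficients are nonnegative -/
def S_K2 : Prop := ∀ d : ℕ, 1 ≤ d → ∀ m : ℕ, d ≤ m → 0 ≤ aa d m

/-- (K3) the size of the coefficients -/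
def S_K3 : Prop := ∃ C : ℝ, ∀ d : ℕ, 1 ≤ d → ∀ m : ℕ, m ≤ 2 * d →
  |aa d m - 1 / (2 * d) * ∫ x in (-1:ℝ)..(1 - (m:ℝ) / d),
    Gx x * (G2 (x + (m:ℝ) / d) + cc ^ 2 * Gx (x + (m:ℝ) / d))| ≤ C / (d:ℝ) ^ 2

/-- (K5) the integral -/
def S_K5 : Prop := ∀ α c : ℝ, ∫ x in (-1:ℝ)..(1 - α), Gx x * (G2 (x + α) + c ^ 2 * Gx (x + α)) =
  B2 α + c ^ 2 * Bx α

/-- (K4) the inequality -/
def S_K4 : Prop := ∀ a : ℕ → ℕ → ℝ, (∃ C : ℝ, ∀ d : ℕ, 1 ≤ d → ∀ m : ℕ, m ≤ 2 * d →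
    |a d m - 1 / (2 * d) * (B2 ((m:ℝ) / d) + cc ^ 2 * Bx ((m:ℝ) / d))| ≤ C / (d:ℝ) ^ 2) →
  ∃ η : ℝ, 0 < η ∧ η ≤ 1 / 100 ∧ ∃ D₀ : ℕ, ∀ d : ℕ, D₀ ≤ d → 0 ≤ a d 0 ∧
  (d:ℝ) * (a d 0 + 2 * ∑ m ∈ Icc 1 (2 * d), a d m) <
    a d 0 * ((d:ℝ) - 2) ^ 2 + 2 * ∑ m ∈ Icc 1 (2 * d),
      (if (m:ℝ) ≤ (4 / 3 - η) * d then a d m * min (m:ℝ) d - η * d * |a d m|
        else if (m:ℝ) ≤ (2 - η) * d then a d m * (d - (m:ℝ) / 2 - η * d) else 0)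

end Pool.Agent.H523.ZG
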